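import Pool.Agent.R179.Per.Stmts

open MeasureTheory Metric Set

namespace Pool.Agent.R179.Per

/-- the failing pair (in units of one fifth) -/
noncomputable def pB : Fin 5 → Pl :=
  ![!₂[1/5, 4/5], !₂[1/5, 0], !₂[9/5, 0], !₂[0, 0], !₂[2/5, -1/5]]
noncomputable def qB : Fin 5 → Pl :=
  ![!₂[1/5, 4/5], !₂[1/5, 0], !₂[9/5, 0], !₂[0, 0], !₂[2/5, 1/5]]

theorem dist_sq2' (x y : Pl) : dist x y = Real.sqrt ((x 0 - y 0) ^ 2 + (x 1 - y 1) ^ 2) := by
  rw [EuclideanSpace.dist_eq, Fin.sum_univ_two]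
  simp [Real.dist_eq, sq_abs]

theorem contr : ∀ i j, dist (qB i) (qB j) ≤ dist (pB i) (pB j) := by
  intro i j
  rw [dist_sq2', dist_sq2']
  apply Real.sqrt_le_sqrt
  fin_cases i <;> fin_cases j <;> simp [pB, qB] <;> norm_num

/-- half-angle coordinates -/
theorem half {θ : ℝ} (h : θ ∈ Ioo (-Real.pi) Real.pi) : ∃ t : ℝ, θ = 2 * Real.arctan t ∧
    Real.cos θ * (1 + t ^ 2) = 1 - t ^ 2 ∧ Real.sin θ * (1 + t ^ 2) = 2 * t := by
  have h1 : -(Real.pi / 2) < θ / 2 := by linarith [h.1]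
  have h2 : θ / 2 < Real.pi / 2 := by linarith [h.2]
  have hc : 0 < Real.cos (θ / 2) := Real.cos_pos_of_mem_Ioo ⟨h1, h2⟩
  refine ⟨Real.tan (θ / 2), ?_, ?_, ?_⟩
  · rw [Real.arctan_tan h1 h2]; ring
  · have e : θ = 2 * (θ / 2) := by ring
    have h3 : Real.cos θ = 2 * Real.cos (θ / 2) ^ 2 - 1 := by
      conv_lhs => rw [e]
      rw [Real.cos_two_mul]
    have h4 := Real.sin_sq_add_cos_sq (θ / 2)
    rw [h3, Real.tan_eq_sin_div_cos]
    field_simp
    linear_combination (2 * Real.cos (θ / 2) ^ 2) * h4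
  · have e : θ = 2 * (θ / 2) := by ring
    have h3 : Real.sin θ = 2 * Real.sin (θ / 2) * Real.cos (θ / 2) := by
      conv_lhs => rw [e]
      rw [Real.sin_two_mul]
    have h4 := Real.sin_sq_add_cos_sq (θ / 2)
    rw [h3, Real.tan_eq_sin_div_cos]
    field_simp
    linear_combination Real.sin (θ / 2) * h4

theorem cov (a1 a2 b1 b2 θ : ℝ) : 1 ≤ dist ((!₂[a1, a2] : Pl) + (1:ℝ) • e θ) (!₂[b1, b2] : Pl) ↔
    0 ≤ (a1 - b1) ^ 2 + (a2 - b2) ^ 2 + 2 * ((a1 - b1) * Real.cos θ + (a2 - b2) * Real.sin θ) := by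
  rw [dist_sq2', Real.one_le_sqrt]
  simp [e]
  have h4 := Real.sin_sq_add_cos_sq θ
  constructor <;> intro h <;> nlinarith


theorem im_eq {ι : Type} [Fintype ι] (p : ι → Pl) (b : Pl) : b ∈ im p ↔ ∃ i, p i = b := by
  simp [im]

open Classical in
theorem T_eq (p : Fin 5 → Pl) (hp : Function.Injective p) :
    T (im p) 1 = ∑ i, (volume (exposed (im p) 1 (p i))).toReal := by
  have h : im p = Finset.univ.image p := by
    ext b; rw [im_eq]; simp
  unfold T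
  conv_lhs => rw [h]
  rw [Finset.sum_image (fun i _ j _ hij => hp hij)]
  simp only [h]

theorem vol_le (s : Set ℝ) (a b c d : ℝ) (hab : a ≤ b) (hcd : c ≤ d)
    (h : s ⊆ Icc a b ∪ Icc c d ∪ {Real.pi}) : (volume s).toReal ≤ (b - a) + (d - c) := by
  have h1 : volume s ≤ ENNReal.ofReal ((b - a) + (d - c)) := by
    refine (measure_mono h).trans ?_
    refine (measure_union_le _ _).trans ?_
    rw [Real.volume_singleton, add_zero]
    refine (measure_union_le _ _).trans ?_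
    rw [Real.volume_Icc, Real.volume_Icc, ← ENNReal.ofReal_add (by linarith) (by linarith)]
  have := ENNReal.toReal_mono ENNReal.ofReal_ne_top h1
  rwa [ENNReal.toReal_ofReal (by linarith)] at this

theorem vol_ge (s : Set ℝ) (hs : s ⊆ Ioc (-Real.pi) Real.pi) (a b c d : ℝ) (hab : a ≤ b) (hcd : c ≤ d)
    (hbc : b ≤ c) (h : Ioo a b ∪ Ioo c d ⊆ s) : (b - a) + (d - c) ≤ (volume s).toReal := by
  have h1 : ENNReal.ofReal ((b - a) + (d - c)) ≤ volume s := by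
    refine le_trans ?_ (measure_mono h)
    rw [measure_union ?_ measurableSet_Ioo, Real.volume_Ioo, Real.volume_Ioo,
      ← ENNReal.ofReal_add (by linarith) (by linarith)]
    rw [Set.disjoint_left]
    intro x hx hx'
    linarith [hx.2, hx'.1]
  have hfin : volume s ≠ ⊤ := by
    refine ne_top_of_le_ne_top ?_ (measure_mono hs)
    rw [Real.volume_Ioc]; exact ENNReal.ofReal_ne_top
  have := ENNReal.toReal_mono hfin h1
  rwa [ENNReal.toReal_ofReal (by linarith)] at this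

/-- covered quadratic: `v = 5 (b - a)` -/
theorem quad {θ t : ℝ} (hc : Real.cos θ * (1 + t ^ 2) = 1 - t ^ 2)
    (hs : Real.sin θ * (1 + t ^ 2) = 2 * t) (a1 a2 b1 b2 : ℝ) :
    (0 ≤ (a1 - b1) ^ 2 + (a2 - b2) ^ 2 + 2 * ((a1 - b1) * Real.cos θ + (a2 - b2) * Real.sin θ)) ↔
    0 ≤ ((a1 - b1) ^ 2 + (a2 - b2) ^ 2) * (1 + t ^ 2) +
      2 * ((a1 - b1) * (1 - t ^ 2) + (a2 - b2) * (2 * t)) := by
  have h : ((a1 - b1) ^ 2 + (a2 - b2) ^ 2 + 2 * ((a1 - b1) * Real.cos θ + (a2 - b2) * Real.sin θ)) *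
      (1 + t ^ 2) = ((a1 - b1) ^ 2 + (a2 - b2) ^ 2) * (1 + t ^ 2) +
      2 * ((a1 - b1) * (1 - t ^ 2) + (a2 - b2) * (2 * t)) := by
    linear_combination (2 * (a1 - b1)) * hc + (2 * (a2 - b2)) * hs
  rw [← h]
  constructor
  · intro h'; positivity
  · intro h'
    have : 0 < 1 + t ^ 2 := by positivity
    exact nonneg_of_mul_nonneg_left h' this

theorem inj_p : Function.Injective pB := by
  intro i j h
  have h0 := congrArg (fun v : Pl => v 0) h
  have h1 := congrArg (fun v : Pl => v 1) h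
  fin_cases i <;> fin_cases j <;> simp [pB] at h0 h1 ⊢ <;>
    first | (norm_num at h0; done) | (norm_num at h1; done)

theorem inj_q : Function.Injective qB := by
  intro i j h
  have h0 := congrArg (fun v : Pl => v 0) h
  have h1 := congrArg (fun v : Pl => v 1) h
  fin_cases i <;> fin_cases j <;> simp [qB] at h0 h1 ⊢ <;>
    first | (norm_num at h0; done) | (norm_num at h1; done)

theorem mem_exp {ι : Type} [Fintype ι] (p : ι → Pl) (a : Pl) (θ : ℝ) :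
    θ ∈ exposed (im p) 1 a ↔ θ ∈ Ioc (-Real.pi) Real.pi ∧ ∀ j, 1 ≤ dist (a + (1:ℝ) • e θ) (p j) := by
  unfold exposed
  simp only [mem_ofPred_eq]
  refine and_congr_right fun _ => ?_
  constructor
  · intro h j; exact h _ ((im_eq p _).mpr ⟨j, rfl⟩)
  · intro h b hb
    obtain ⟨j, rfl⟩ := (im_eq p _).mp hb
    exact h j

/-- exposed points of `p` in half-angle coordinates -/
theorem expP (i : Fin 5) {θ : ℝ} (hθ : θ ∈ exposed (im pB) 1 (pB i)) (hπ : θ ≠ Real.pi) :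
    ∃ t : ℝ, θ = 2 * Real.arctan t ∧ ∀ j, 0 ≤ ((pB i 0 - pB j 0) ^ 2 + (pB i 1 - pB j 1) ^ 2) * (1 + t ^ 2) +
      2 * ((pB i 0 - pB j 0) * (1 - t ^ 2) + (pB i 1 - pB j 1) * (2 * t)) := by
  rw [mem_exp] at hθ
  obtain ⟨t, ht, hc, hs⟩ := half ⟨hθ.1.1, lt_of_le_of_ne hθ.1.2 hπ⟩
  refine ⟨t, ht, fun j => ?_⟩
  rw [← quad hc hs, ← cov]
  have := hθ.2 j
  convert this using 2
  · congr 1
    ext k; fin_cases k <;> rfl
  · ext k; fin_cases k <;> rfl

theorem expQ (i : Fin 5) {θ : ℝ} (hθ : θ ∈ Ioo (-Real.pi) Real.pi)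
    (h : ∀ t : ℝ, θ = 2 * Real.arctan t → ∀ j, 0 ≤ ((qB i 0 - qB j 0) ^ 2 + (qB i 1 - qB j 1) ^ 2) * (1 + t ^ 2) +
      2 * ((qB i 0 - qB j 0) * (1 - t ^ 2) + (qB i 1 - qB j 1) * (2 * t))) :
    θ ∈ exposed (im qB) 1 (qB i) := by
  rw [mem_exp]
  obtain ⟨t, ht, hc, hs⟩ := half hθ
  refine ⟨⟨hθ.1, hθ.2.le⟩, fun j => ?_⟩
  have := h t ht j
  rw [← quad hc hs, ← cov] at this
  convert this using 2
  · congr 1
    ext k; fin_cases k <;> rfl
  · ext k; fin_cases k <;> rfl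

end Pool.Agent.R179.Per
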