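import Pool.Agent.R179.Per.B1

open MeasureTheory Metric Set

namespace Pool.Agent.R179.Per

theorem atn_mono {x y : ℝ} (h : x ≤ y) : Real.arctan x ≤ Real.arctan y :=
  Real.arctan_strictMono.monotone h

theorem atn_lt {x y : ℝ} : Real.arctan x < Real.arctan y ↔ x < y :=
  Real.arctan_strictMono.lt_iff_lt

/-- circle 0 of `p` -/
theorem p0 : (volume (exposed (im pB) 1 (pB 0))).toReal ≤
    (Real.pi - 0) + (2 * Real.arctan (-1105/100) - (-Real.pi)) := by
  have b1 := Real.neg_pi_div_two_lt_arctan (-1105/100)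
  refine vol_le _ 0 Real.pi (-Real.pi) (2 * Real.arctan (-1105/100)) Real.pi_pos.le (by linarith) ?_
  intro θ hθ
  by_cases hπ : θ = Real.pi
  · right; exact hπ
  left
  obtain ⟨t, ht, hj⟩ := expP 0 hθ hπ
  have h2 := hj 2
  have h3 := hj 3
  simp [pB] at h2 h3
  have hθ' := (mem_exp _ _ _).mp hθ
  rcases le_or_gt 0 t with h | h
  · left
    refine ⟨?_, hθ'.1.2⟩
    have := Real.arctan_nonneg.mpr h
    linarith
  · right
    refine ⟨hθ'.1.1.le, ?_⟩
    rw [ht]
    have : t ≤ -1105/100 := by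
      by_contra hc
      push Not at hc
      rcases lt_or_ge t (-1/2) with h' | h'
      · nlinarith
      · nlinarith
    linarith [atn_mono this]

theorem p1 : (volume (exposed (im pB) 1 (pB 1))).toReal ≤ (0 - 0) + (0 - 0) := by
  refine vol_le _ 0 0 0 0 le_rfl le_rfl ?_
  intro θ hθ
  by_cases hπ : θ = Real.pi
  · right; exact hπ
  exfalso
  obtain ⟨t, ht, hj⟩ := expP 1 hθ hπ
  have h0 := hj 0
  have h3 := hj 3
  have h4 := hj 4
  simp [pB] at h0 h3 h4
  rcases lt_or_ge t (-15/10) with h | h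
  · nlinarith
  · rcases lt_or_ge t (3/10) with h' | h'
    · nlinarith
    · rcases lt_or_ge t 3 with h'' | h''
      · nlinarith
      · nlinarith

theorem p2 : (volume (exposed (im pB) 1 (pB 2))).toReal ≤
    (2 * Real.arctan 2 - 2 * Real.arctan (-2)) + (0 - 0) := by
  refine vol_le _ _ _ 0 0 (by linarith [atn_mono (show (-2:ℝ) ≤ 2 by norm_num)]) le_rfl ?_
  intro θ hθ
  by_cases hπ : θ = Real.pi
  · right; exact hπ
  left; left
  obtain ⟨t, ht, hj⟩ := expP 2 hθ hπ
  have h0 := hj 0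
  have h4 := hj 4
  simp [pB] at h0 h4
  rw [ht]
  have e1 : t ≤ 2 := by nlinarith
  have e2 : -2 ≤ t := by nlinarith
  exact ⟨by linarith [atn_mono e2], by linarith [atn_mono e1]⟩

theorem p3 : (volume (exposed (im pB) 1 (pB 3))).toReal ≤
    (Real.pi - 2 * Real.arctan (287/100)) + (2 * Real.arctan (-127/100) - (-Real.pi)) := by
  have b1 := Real.neg_pi_div_two_lt_arctan (-127/100)
  have b2 := Real.arctan_lt_pi_div_two (287/100)
  refine vol_le _ _ _ _ _ (by linarith) (by linarith) ?_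
  intro θ hθ
  by_cases hπ : θ = Real.pi
  · right; exact hπ
  left
  obtain ⟨t, ht, hj⟩ := expP 3 hθ hπ
  have h0 := hj 0
  have h4 := hj 4
  simp [pB] at h0 h4
  have hθ' := (mem_exp _ _ _).mp hθ
  rcases le_or_gt (287/100) t with h | h
  · left
    refine ⟨?_, hθ'.1.2⟩
    rw [ht]
    linarith [atn_mono h]
  · right
    refine ⟨hθ'.1.1.le, ?_⟩
    rw [ht]
    have : t ≤ -127/100 := by
      by_contra hc
      push Not at hc
      rcases lt_or_ge t (4/10) with h' | h'
      · nlinarith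
      · nlinarith
    linarith [atn_mono this]

theorem p4 : (volume (exposed (im pB) 1 (pB 4))).toReal ≤
    (2 * Real.arctan (-1/3) - 2 * Real.arctan (-212/100)) + (0 - 0) := by
  refine vol_le _ _ _ 0 0 (by linarith [atn_mono (show (-212/100:ℝ) ≤ -1/3 by norm_num)]) le_rfl ?_
  intro θ hθ
  by_cases hπ : θ = Real.pi
  · right; exact hπ
  left; left
  obtain ⟨t, ht, hj⟩ := expP 4 hθ hπ
  have h0 := hj 0
  have h1 := hj 1
  have h2 := hj 2
  have h3 := hj 3
  simp [pB] at h0 h1 h2 h3
  rw [ht]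
  have e1 : t ≤ -1/3 := by
    by_contra hc
    push Not at hc
    rcases lt_or_ge t (4/10) with h' | h'
    · nlinarith
    · rcases lt_or_ge t 3 with h'' | h''
      · nlinarith
      · nlinarith
  have e2 : -212/100 ≤ t := by
    by_contra hc
    push Not at hc
    nlinarith
  exact ⟨by linarith [atn_mono e2], by linarith [atn_mono e1]⟩

end Pool.Agent.R179.Per
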