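import Pool.Agent.R179.Per.B2

open MeasureTheory Metric Set

namespace Pool.Agent.R179.Per

theorem exp_sub (p : Fin 5 → Pl) (a : Pl) : exposed (im p) 1 a ⊆ Ioc (-Real.pi) Real.pi :=
  fun _ h => h.1

theorem q0 : (2 * Real.arctan (-111/10) - (-Real.pi)) + (Real.pi - 0) ≤
    (volume (exposed (im qB) 1 (qB 0))).toReal := by
  have b1 := Real.neg_pi_div_two_lt_arctan (-111/10)
  have b2 : Real.arctan (-111/10) < 0 := Real.arctan_lt_zero.mpr (by norm_num)
  have hpi := Real.pi_pos
  refine vol_ge _ (exp_sub _ _) (-Real.pi) _ 0 Real.pi (by linarith) hpi.le (by linarith) ?_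
  rintro θ (⟨h1, h2⟩ | ⟨h1, h2⟩)
  · apply expQ 0 ⟨h1, by linarith⟩
    intro t ht
    have h3 : t < -111/10 := atn_lt.mp (by linarith)
    intro j
    fin_cases j <;> simp [qB] <;> nlinarith
  · apply expQ 0 ⟨by linarith, h2⟩
    intro t ht
    have h3 : 0 < t := Real.arctan_pos.mp (by linarith)
    intro j
    fin_cases j <;> simp [qB] <;> nlinarith

theorem q1 : (2 * Real.arctan (-1/3) - 2 * Real.arctan (-1105/1000)) + (0 - 0) ≤
    (volume (exposed (im qB) 1 (qB 1))).toReal := by
  have b1 := Real.neg_pi_div_two_lt_arctan (-1105/1000)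
  have b2 : Real.arctan (-1/3) < 0 := Real.arctan_lt_zero.mpr (by norm_num)
  have hpi := Real.pi_pos
  refine vol_ge _ (exp_sub _ _) _ _ 0 0 (by linarith [atn_mono (show (-1105/1000:ℝ) ≤ -1/3 by norm_num)])
    le_rfl (by linarith) ?_
  rintro θ (⟨h1, h2⟩ | ⟨h1, h2⟩)
  · apply expQ 1 ⟨by linarith, by linarith⟩
    intro t ht
    have h3 : t < -1/3 := atn_lt.mp (by linarith)
    have h4 : -1105/1000 < t := atn_lt.mp (by linarith)
    intro j
    fin_cases j <;> simp [qB] <;> nlinarith
  · linarith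

theorem q2 : (2 * Real.arctan 2 - 2 * Real.arctan (-3)) + (Real.pi - Real.pi) ≤
    (volume (exposed (im qB) 1 (qB 2))).toReal := by
  have b1 := Real.neg_pi_div_two_lt_arctan (-3)
  have b2 := Real.arctan_lt_pi_div_two 2
  have hpi := Real.pi_pos
  refine vol_ge _ (exp_sub _ _) _ _ Real.pi Real.pi (by linarith [atn_mono (show (-3:ℝ) ≤ 2 by norm_num)])
    le_rfl (by linarith) ?_
  rintro θ (⟨h1, h2⟩ | ⟨h1, h2⟩)
  · apply expQ 2 ⟨by linarith, by linarith⟩
    intro t ht
    have h3 : t < 2 := atn_lt.mp (by linarith)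
    have h4 : -3 < t := atn_lt.mp (by linarith)
    intro j
    fin_cases j <;> simp [qB] <;> nlinarith
  · linarith

theorem q3 : (2 * Real.arctan (-905/1000) - (-Real.pi)) + (Real.pi - 2 * Real.arctan (2875/1000)) ≤
    (volume (exposed (im qB) 1 (qB 3))).toReal := by
  have b1 := Real.neg_pi_div_two_lt_arctan (-905/1000)
  have b2 := Real.arctan_lt_pi_div_two (2875/1000)
  have b3 : Real.arctan (-905/1000) < 0 := Real.arctan_lt_zero.mpr (by norm_num)
  have b4 : 0 < Real.arctan (2875/1000) := Real.arctan_pos.mpr (by norm_num)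
  have hpi := Real.pi_pos
  refine vol_ge _ (exp_sub _ _) (-Real.pi) _ _ Real.pi (by linarith) (by linarith) (by linarith) ?_
  rintro θ (⟨h1, h2⟩ | ⟨h1, h2⟩)
  · apply expQ 3 ⟨h1, by linarith⟩
    intro t ht
    have h3 : t < -905/1000 := atn_lt.mp (by linarith)
    intro j
    fin_cases j <;> simp [qB] <;> nlinarith
  · apply expQ 3 ⟨by linarith, h2⟩
    intro t ht
    have h3 : 2875/1000 < t := atn_lt.mp (by linarith)
    intro j
    fin_cases j <;> simp [qB] <;> nlinarith

/-! numerical estimate -/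

theorem atn_upper {x : ℝ} (hx : 0 ≤ x) : Real.arctan x ≤ x - x ^ 3 / 3 + x ^ 5 / 5 := by
  have h1 : ∀ y : ℝ, HasDerivAt (fun x : ℝ => x - x ^ 3 / 3 + x ^ 5 / 5 - Real.arctan x)
      (1 - (3 * y ^ 2) / 3 + (5 * y ^ 4) / 5 - 1 / (1 + y ^ 2)) y := by
    intro y
    have b : HasDerivAt (fun x : ℝ => x ^ 3 / 3) ((3 * y ^ 2) / 3) y := by
      simpa using (hasDerivAt_pow 3 y).div_const 3
    have c : HasDerivAt (fun x : ℝ => x ^ 5 / 5) ((5 * y ^ 4) / 5) y := by
      simpa using (hasDerivAt_pow 5 y).div_const 5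
    exact (((hasDerivAt_id' y).fun_sub b).fun_add c).fun_sub (Real.hasDerivAt_arctan y)
  have key : MonotoneOn (fun x : ℝ => x - x ^ 3 / 3 + x ^ 5 / 5 - Real.arctan x) (Ici 0) := by
    apply monotoneOn_of_deriv_nonneg (convex_Ici 0)
    · exact fun y _ => (h1 y).continuousAt.continuousWithinAt
    · exact fun y _ => (h1 y).differentiableAt.differentiableWithinAt
    · intro y hy
      rw [(h1 y).deriv]
      have h2 : (0:ℝ) < 1 + y ^ 2 := by positivity
      have h3 : 1 - (3 * y ^ 2) / 3 + (5 * y ^ 4) / 5 - 1 / (1 + y ^ 2) = y ^ 6 / (1 + y ^ 2) := by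
        field_simp; ring
      rw [h3]; positivity
  have := key (show (0:ℝ) ∈ Ici 0 from mem_Ici.mpr le_rfl) (show x ∈ Ici 0 from hx) hx
  simp at this
  linarith

theorem atn_lower {x : ℝ} (hx : 0 ≤ x) : x - x ^ 3 / 3 ≤ Real.arctan x := by
  have h1 : ∀ y : ℝ, HasDerivAt (fun x : ℝ => Real.arctan x - (x - x ^ 3 / 3))
      (1 / (1 + y ^ 2) - (1 - (3 * y ^ 2) / 3)) y := by
    intro y
    have b : HasDerivAt (fun x : ℝ => x ^ 3 / 3) ((3 * y ^ 2) / 3) y := by
      simpa using (hasDerivAt_pow 3 y).div_const 3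
    exact (Real.hasDerivAt_arctan y).fun_sub ((hasDerivAt_id' y).fun_sub b)
  have key : MonotoneOn (fun x : ℝ => Real.arctan x - (x - x ^ 3 / 3)) (Ici 0) := by
    apply monotoneOn_of_deriv_nonneg (convex_Ici 0)
    · exact fun y _ => (h1 y).continuousAt.continuousWithinAt
    · exact fun y _ => (h1 y).differentiableAt.differentiableWithinAt
    · intro y hy
      rw [(h1 y).deriv]
      have h2 : (0:ℝ) < 1 + y ^ 2 := by positivity
      have h3 : 1 / (1 + y ^ 2) - (1 - (3 * y ^ 2) / 3) = y ^ 4 / (1 + y ^ 2) := by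
        field_simp; ring
      rw [h3]; positivity
  have := key (show (0:ℝ) ∈ Ici 0 from mem_Ici.mpr le_rfl) (show x ∈ Ici 0 from hx) hx
  simp at this
  linarith

theorem atn_sub {x y : ℝ} (hy : 0 ≤ y) (hxy : y ≤ x) :
    Real.arctan x - Real.arctan y = Real.arctan ((x - y) / (1 + x * y)) := by
  have h := Real.arctan_add (x := x) (y := -y) (by nlinarith [mul_nonneg (hy.trans hxy) hy])
  rw [Real.arctan_neg] at h
  rw [sub_eq_add_neg, h]
  congr 1
  ring

theorem numeric : 0 < (Real.arctan (1105/100) - Real.arctan (111/10)) +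
    (Real.arctan (1105/1000) - Real.arctan (212/100)) + (Real.arctan 3 - Real.arctan 2) +
    (Real.arctan (287/100) - Real.arctan (2875/1000)) +
    (Real.arctan (127/100) - Real.arctan (905/1000)) := by
  have a1 := atn_sub (x := 111/10) (y := 1105/100) (by norm_num) (by norm_num)
  have a2 := atn_sub (x := 212/100) (y := 1105/1000) (by norm_num) (by norm_num)
  have a3 := atn_sub (x := 3) (y := 2) (by norm_num) (by norm_num)
  have a4 := atn_sub (x := 2875/1000) (y := 287/100) (by norm_num) (by norm_num)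
  have a5 := atn_sub (x := 127/100) (y := 905/1000) (by norm_num) (by norm_num)
  have b1 := atn_upper (x := (111/10 - 1105/100) / (1 + 111/10 * (1105/100))) (by norm_num)
  have b2 := atn_upper (x := (212/100 - 1105/1000) / (1 + 212/100 * (1105/1000))) (by norm_num)
  have b3 := atn_lower (x := (3 - 2) / (1 + 3 * 2)) (by norm_num)
  have b4 := atn_upper (x := (2875/1000 - 287/100) / (1 + 2875/1000 * (287/100))) (by norm_num)
  have b5 := atn_lower (x := (127/100 - 905/1000) / (1 + 127/100 * (905/1000))) (by norm_num)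
  rw [← a1] at b1
  rw [← a2] at b2
  rw [← a3] at b3
  rw [← a4] at b4
  rw [← a5] at b5
  norm_num at b1 b2 b3 b4 b5 ⊢
  linarith

theorem b_ok : St_B := by
  refine ⟨pB, qB, contr, ?_⟩
  rw [T_eq pB inj_p, T_eq qB inj_q, Fin.sum_univ_five, Fin.sum_univ_five]
  have n := numeric
  have e0 := p0
  have e1 := p1
  have e2 := p2
  have e3 := p3
  have e4 := p4
  have f0 := q0
  have f1 := q1
  have f2 := q2
  have f3 := q3
  have f4 : 0 ≤ (volume (exposed (im qB) 1 (qB 4))).toReal := ENNReal.toReal_nonneg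
  have g1 : Real.arctan (-1105/100) = - Real.arctan (1105/100) := by
    rw [← Real.arctan_neg]; norm_num
  have g2 : Real.arctan (-2) = - Real.arctan 2 := Real.arctan_neg 2
  have g3 : Real.arctan (-127/100) = - Real.arctan (127/100) := by
    rw [← Real.arctan_neg]; norm_num
  have g4 : Real.arctan (-212/100) = - Real.arctan (212/100) := by
    rw [← Real.arctan_neg]; norm_num
  have g5 : Real.arctan (-111/10) = - Real.arctan (111/10) := by
    rw [← Real.arctan_neg]; norm_num
  have g6 : Real.arctan (-1105/1000) = - Real.arctan (1105/1000) := by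
    rw [← Real.arctan_neg]; norm_num
  have g7 : Real.arctan (-3) = - Real.arctan 3 := Real.arctan_neg 3
  have g8 : Real.arctan (-905/1000) = - Real.arctan (905/1000) := by
    rw [← Real.arctan_neg]; norm_num
  rw [g1] at e0
  rw [g2] at e2
  rw [g3] at e3
  rw [g4] at e4
  rw [g5] at f0
  rw [g6] at f1
  rw [g7] at f2
  rw [g8] at f3
  linarith

end Pool.Agent.R179.Per
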