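import Mathlib

/-!
Definitions for `MP_3836fe_co` (perimeter of unions of unit disks under contraction).
-/

open MeasureTheory Metric Set

namespace Pool.Agent.R179.Per

/-- The Euclidean plane. -/
abbrev Pl := EuclideanSpace ℝ (Fin 2)

/-- `ℝ⁶`. -/
abbrev E6 := EuclideanSpace ℝ (Fin 6)

/-- The perimeter of the union of the closed unit disks centred at the points `p i`: the
one-dimensional Hausdorff measure of the topological boundary. -/
noncomputable def per {n : ℕ} (p : Fin n → Pl) : ENNReal :=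
  Measure.hausdorffMeasure 1 (frontier (⋃ i, closedBall (p i) 1))

/-- Property `(P_n)`. -/
def P (n : ℕ) : Prop := ∀ p q : Fin n → Pl,
  (∀ i j, dist (q i) (q j) ≤ dist (p i) (p j)) → per q ≤ per p

/-- The unit vector of direction `θ`. -/
noncomputable def e (θ : ℝ) : Pl := !₂[Real.cos θ, Real.sin θ]

/-- The directions `θ` such that the point `a + r e(θ)` is not in the open disk of radius `r`
about any point of `S`. -/
def exposed (S : Finset Pl) (r : ℝ) (a : Pl) : Set ℝ :=
  {θ | θ ∈ Ioc (-Real.pi) Real.pi ∧ ∀ b ∈ S, r ≤ dist (a + r • e θ) b}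

/-- Total exposed angle. -/
noncomputable def T (S : Finset Pl) (r : ℝ) : ℝ := ∑ a ∈ S, (volume (exposed S r a)).toReal

/-- The image of a finite family, as a `Finset`. -/
noncomputable def im {ι : Type} [Fintype ι] (p : ι → Pl) : Finset Pl :=
  (Set.finite_range p).toFinset

/-- Test functions: smooth compactly supported nonnegative functions on `ℝ`. -/
structure Test (φ : ℝ → ℝ) : Prop where
  smooth : ContDiff ℝ 4 φ
  cpt : HasCompactSupport φ
  nonneg : ∀ s, 0 ≤ φ s

/-- The planar integral `∫ φ(min |x - p_i|²) dx`. -/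
noncomputable def I2 (φ : ℝ → ℝ) (p : Fin 4 → Pl) : ℝ :=
  ∫ x : Pl, φ (⨅ i, dist x (p i) ^ 2)

/-- The lifted integral `∫_{ℝ⁶} φ''(min |y - x_i|²) dy`. -/
noncomputable def J (φ : ℝ → ℝ) (x : Fin 4 → E6) : ℝ :=
  ∫ y : E6, deriv (deriv φ) (⨅ i, dist y (x i) ^ 2)

/-- The lift of a planar configuration to `ℝ⁶`, with a regular simplex of edge `√2 δ` added in the
last four coordinates. -/
noncomputable def lift (δ : ℝ) (p : Fin 4 → Pl) (i : Fin 4) : E6 :=
  !₂[p i 0, p i 1, if i = 0 then δ else 0, if i = 1 then δ else 0,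
    if i = 2 then δ else 0, if i = 3 then δ else 0]

/-- The hinge configuration: axis through the points `2` and `3`. -/
noncomputable def hinge (l s0 s1 r0 r1 τ : ℝ) (i : Fin 4) : E6 :=
  if i = 0 then !₂[s0, r0 * Real.cos τ, r0 * Real.sin τ, 0, 0, 0]
  else if i = 1 then !₂[s1, r1, 0, 0, 0, 0]
  else if i = 2 then 0
  else !₂[l, 0, 0, 0, 0, 0]

/-- Strict negative type with constant `ε` (for a symmetric matrix with zero diagonal). -/
structure NT (ε : ℝ) (D : Fin 4 → Fin 4 → ℝ) : Prop where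
  symm : ∀ i j, D i j = D j i
  diag : ∀ i, D i i = 0
  neg : ∀ c : Fin 4 → ℝ, ∑ i, c i = 0 → ∑ i, ∑ j, c i * c j * D i j ≤ -ε * ∑ i, c i ^ 2

/-- The squared distance matrix. -/
noncomputable def dm (x : Fin 4 → E6) (i j : Fin 4) : ℝ := dist (x i) (x j) ^ 2

end Pool.Agent.R179.Per
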