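import Pool.Agent.R179.Per.Stmts

open MeasureTheory Metric Set

namespace Pool.Agent.R179.Per

theorem iInf_fin4 (f : Fin 4 → ℝ) : (⨅ i, f i) = min (f 0) (min (f 1) (min (f 2) (f 3))) := by
  apply le_antisymm
  · refine le_min ?_ (le_min ?_ (le_min ?_ ?_)) <;>
      exact ciInf_le (Set.finite_range _).bddBelow _
  · refine le_ciInf fun i => ?_
    fin_cases i
    · exact min_le_left _ _
    · exact (min_le_right _ _).trans (min_le_left _ _)
    · exact (min_le_right _ _).trans ((min_le_right _ _).trans (min_le_left _ _))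
    · exact (min_le_right _ _).trans ((min_le_right _ _).trans (min_le_right _ _))

section
variable {E : Type*} [NormedAddCommGroup E] [InnerProductSpace ℝ E] [FiniteDimensional ℝ E]
  [MeasurableSpace E] [BorelSpace E]

/-- minimum of three squared distances -/
noncomputable def M3 (x : Fin 3 → E) (y : E) : ℝ :=
  min (‖y - x 0‖ ^ 2) (min (‖y - x 1‖ ^ 2) (‖y - x 2‖ ^ 2))

theorem M3_cont (x : Fin 3 → E) : Continuous (M3 x) := by
  unfold M3; fun_prop

theorem null_bis (a b : E) (hab : a ≠ b) : volume {y : E | ‖y - a‖ ^ 2 = ‖y - b‖ ^ 2} = 0 := by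
  have h := Measure.addHaar_affineSubspace (volume : Measure E)
    (AffineSubspace.perpBisector a b) (by
      simpa using hab)
  refine measure_mono_null ?_ h
  intro y hy
  simp only [mem_ofPred_eq] at hy
  rw [SetLike.mem_coe, AffineSubspace.mem_perpBisector_iff_dist_eq, dist_eq_norm, dist_eq_norm]
  have h1 : 0 ≤ ‖y - a‖ := norm_nonneg _
  have h2 : 0 ≤ ‖y - b‖ := norm_nonneg _
  exact (sq_eq_sq₀ h1 h2).mp hy

theorem bounded_of_compact (g : ℝ → ℝ) (hg : Continuous g) (hc : HasCompactSupport g) :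
    ∃ C : ℝ, 0 ≤ C ∧ ∀ t, |g t| ≤ C := by
  obtain ⟨C, hC⟩ := hc.exists_bound_of_continuous hg
  refine ⟨max C 0, le_max_right _ _, fun t => ?_⟩
  exact (hC t).trans (le_max_left _ _)

theorem supp_bound (g : ℝ → ℝ) (hc : HasCompactSupport g) :
    ∃ R : ℝ, 0 < R ∧ ∀ t, R ≤ t → g t = 0 := by
  obtain ⟨R, hR⟩ := (hc.isCompact.isBounded).subset_closedBall 0
  refine ⟨max R 0 + 1, by positivity, fun t ht => ?_⟩
  by_contra h
  have h1 : t ∈ tsupport g := subset_tsupport _ h
  have h2 := hR h1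
  rw [mem_closedBall, Real.dist_eq, sub_zero] at h2
  have h3 := le_abs_self t
  have h4 := le_max_left R 0
  linarith

theorem hasDerivAt_J (g : ℝ → ℝ) (hg : ContDiff ℝ 1 g) (hgc : HasCompactSupport g)
    (γ : ℝ → E) (v : E) (C : ℝ) (hC : 0 ≤ C) (hγ : ∀ h h', ‖γ h - γ h'‖ ≤ C * |h - h'|)
    (hv : HasDerivAt γ v 0) (x : Fin 3 → E) (hx : ∀ i, γ 0 ≠ x i) :
    Integrable (fun y => if ‖y - γ 0‖ ^ 2 < M3 x y then
      deriv g (‖y - γ 0‖ ^ 2) * (-2 * inner ℝ (y - γ 0) v) else 0) ∧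
    HasDerivAt (fun h => ∫ y, g (min (‖y - γ h‖ ^ 2) (M3 x y)))
      (∫ y, if ‖y - γ 0‖ ^ 2 < M3 x y then
        deriv g (‖y - γ 0‖ ^ 2) * (-2 * inner ℝ (y - γ 0) v) else 0) 0 := by
  obtain ⟨G, hG0, hG⟩ := bounded_of_compact (deriv g) (hg.continuous_deriv le_rfl) hgc.deriv
  obtain ⟨R, hR0, hR⟩ := supp_bound g hgc
  -- g is Lipschitz
  have hLip : ∀ a b, |g a - g b| ≤ G * |a - b| := by
    intro a b
    have := Convex.norm_image_sub_le_of_norm_deriv_le (f := g) (s := univ) (C := G) (x := b) (y := a)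
      (fun t _ => (hg.differentiable one_ne_zero).differentiableAt) (fun t _ => hG t)
      convex_univ (mem_univ _) (mem_univ _)
    simpa [Real.norm_eq_abs] using this
  -- radius
  obtain ⟨K, hK0, hKγ, hKx⟩ : ∃ K : ℝ, 0 ≤ K ∧ (∀ h, |h| ≤ 1 → ‖γ h‖ ≤ K) ∧ ∀ i, ‖x i‖ ≤ K := by
    refine ⟨‖γ 0‖ + C + ‖x 0‖ + ‖x 1‖ + ‖x 2‖, by positivity, ?_, ?_⟩
    · intro h hh
      have h1 := hγ h 0
      have h2 : ‖γ h‖ ≤ ‖γ h - γ 0‖ + ‖γ 0‖ := by
        simpa using norm_add_le (γ h - γ 0) (γ 0)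
      rw [sub_zero] at h1
      have h3 : C * |h| ≤ C * 1 := by gcongr
      have := norm_nonneg (x 0); have := norm_nonneg (x 1); have := norm_nonneg (x 2)
      linarith
    · intro i
      have := norm_nonneg (x 0); have := norm_nonneg (x 1); have := norm_nonneg (x 2)
      have := norm_nonneg (γ 0)
      fin_cases i <;> simp <;> linarith
  set B : ℝ := K + R + 1 with hB
  have hfar : ∀ y a : E, B < ‖y‖ → ‖a‖ ≤ K → R ≤ ‖y - a‖ ^ 2 := by
    intro y a hy ha
    have h1 : ‖y‖ - ‖a‖ ≤ ‖y - a‖ := norm_sub_norm_le y a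
    have h2 : R + 1 ≤ ‖y - a‖ := by linarith
    nlinarith
  have hM : ∀ y : E, B < ‖y‖ → R ≤ M3 x y := by
    intro y hy
    exact le_min (hfar y _ hy (hKx 0)) (le_min (hfar y _ hy (hKx 1)) (hfar y _ hy (hKx 2)))
  have hzero : ∀ h : ℝ, |h| ≤ 1 → ∀ y : E, B < ‖y‖ → g (min (‖y - γ h‖ ^ 2) (M3 x y)) = 0 := by
    intro h hh y hy
    exact hR _ (le_min (hfar y _ hy (hKγ h hh)) (hM y hy))
  have hcont : ∀ h, Continuous fun y => g (min (‖y - γ h‖ ^ 2) (M3 x y)) := by
    intro h
    have := M3_cont x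
    have := hg.continuous
    fun_prop
  have hnull : ∀ᵐ y : E, ‖y - γ 0‖ ^ 2 ≠ M3 x y := by
    have h0 := null_bis (γ 0) (x 0) (hx 0)
    have h1 := null_bis (γ 0) (x 1) (hx 1)
    have h2 := null_bis (γ 0) (x 2) (hx 2)
    have h3 : volume ({y : E | ‖y - γ 0‖ ^ 2 = ‖y - x 0‖ ^ 2} ∪ ({y : E | ‖y - γ 0‖ ^ 2 = ‖y - x 1‖ ^ 2}
      ∪ {y : E | ‖y - γ 0‖ ^ 2 = ‖y - x 2‖ ^ 2})) = 0 :=
      measure_union_null h0 (measure_union_null h1 h2)
    rw [ae_iff]
    refine measure_mono_null ?_ h3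
    intro y hy
    simp only [mem_ofPred_eq, not_not] at hy
    unfold M3 at hy
    simp only [mem_union, mem_ofPred_eq]
    rcases min_choice (‖y - x 0‖ ^ 2) (min (‖y - x 1‖ ^ 2) (‖y - x 2‖ ^ 2)) with h | h
    · left; rw [hy, h]
    · rcases min_choice (‖y - x 1‖ ^ 2) (‖y - x 2‖ ^ 2) with h' | h'
      · right; left; rw [hy, h, h']
      · right; right; rw [hy, h, h']
  set L : ℝ := G * (C * (2 * (B + K))) with hL
  have hL0 : 0 ≤ L := by positivity
  refine hasDerivAt_integral_of_dominated_loc_of_lip (μ := (volume : Measure E))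
    (F := fun h y => g (min (‖y - γ h‖ ^ 2) (M3 x y)))
    (s := Ioo (-1) 1) (Ioo_mem_nhds (by norm_num) (by norm_num))
    (bound := (closedBall (0:E) B).indicator fun _ => L) ?_ ?_ ?_ ?_ ?_ ?_
  · exact Filter.Eventually.of_forall fun h => (hcont h).aestronglyMeasurable
  · refine (hcont 0).integrable_of_hasCompactSupport ?_
    refine HasCompactSupport.intro (isCompact_closedBall (0:E) B) ?_
    intro y hy
    refine hzero 0 (by simp) y ?_
    simpa using hy
  · refine Measurable.aestronglyMeasurable ?_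
    refine Measurable.ite ?_ ?_ measurable_const
    · exact measurableSet_lt (by fun_prop) (M3_cont x).measurable
    · have h1 : Continuous (deriv g) := hg.continuous_deriv le_rfl
      have : Continuous fun y : E => deriv g (‖y - γ 0‖ ^ 2) * (-2 * inner ℝ (y - γ 0) v) := by
        fun_prop
      exact this.measurable
  · refine Filter.Eventually.of_forall fun y => ?_
    refine LipschitzOnWith.of_dist_le_mul fun h hh h' hh' => ?_
    have hh1 : |h| ≤ 1 := abs_le.mpr ⟨hh.1.le, hh.2.le⟩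
    have hh1' : |h'| ≤ 1 := abs_le.mpr ⟨hh'.1.le, hh'.2.le⟩
    by_cases hy : y ∈ closedBall (0:E) B
    · rw [indicator_of_mem hy]
      rw [Real.dist_eq, Real.dist_eq, Real.coe_nnabs, abs_of_nonneg hL0]
      have h1 := hLip (min (‖y - γ h‖ ^ 2) (M3 x y)) (min (‖y - γ h'‖ ^ 2) (M3 x y))
      have h2 : |min (‖y - γ h‖ ^ 2) (M3 x y) - min (‖y - γ h'‖ ^ 2) (M3 x y)| ≤
          |‖y - γ h‖ ^ 2 - ‖y - γ h'‖ ^ 2| := by
        have := abs_min_sub_min_le_max (‖y - γ h‖ ^ 2) (M3 x y) (‖y - γ h'‖ ^ 2) (M3 x y)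
        simpa using this
      have h3 : |‖y - γ h‖ ^ 2 - ‖y - γ h'‖ ^ 2| ≤ C * (2 * (B + K)) * |h - h'| := by
        have e1 : ‖y - γ h‖ ^ 2 - ‖y - γ h'‖ ^ 2 = (‖y - γ h‖ - ‖y - γ h'‖) * (‖y - γ h‖ + ‖y - γ h'‖) := by
          ring
        rw [e1, abs_mul]
        have e2 : |‖y - γ h‖ - ‖y - γ h'‖| ≤ C * |h - h'| := by
          have := abs_norm_sub_norm_le (y - γ h) (y - γ h')
          have e3 : y - γ h - (y - γ h') = γ h' - γ h := by abel
          rw [e3] at this
          have := hγ h' h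
          rw [abs_sub_comm h' h] at this
          linarith
        have hyB : ‖y‖ ≤ B := by simpa using hy
        have e4 : |‖y - γ h‖ + ‖y - γ h'‖| ≤ 2 * (B + K) := by
          rw [abs_of_nonneg (by positivity)]
          have := norm_sub_le y (γ h)
          have := norm_sub_le y (γ h')
          have := hKγ h hh1
          have := hKγ h' hh1'
          linarith
        calc _ ≤ (C * |h - h'|) * (2 * (B + K)) := by
              gcongr
          _ = _ := by ring
      calc _ ≤ G * |min (‖y - γ h‖ ^ 2) (M3 x y) - min (‖y - γ h'‖ ^ 2) (M3 x y)| := h1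
        _ ≤ G * (C * (2 * (B + K)) * |h - h'|) := by
            gcongr
            exact h2.trans h3
        _ = L * |h - h'| := by rw [hL]; ring
    · rw [indicator_of_notMem hy]
      have hyB : B < ‖y‖ := by simpa using hy
      simp only [hzero h hh1 y hyB, hzero h' hh1' y hyB]
      simp
  · rw [integrable_indicator_iff isClosed_closedBall.measurableSet]
    exact integrableOn_const (isCompact_closedBall _ _).measure_lt_top.ne
  · filter_upwards [hnull] with y hy
    have hcγ : ContinuousAt (fun h => ‖y - γ h‖ ^ 2) 0 := by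
      have := hv.continuousAt
      fun_prop
    have hder : HasDerivAt (fun h => ‖y - γ h‖ ^ 2) (-2 * inner ℝ (y - γ 0) v) 0 := by
      have h1 : HasDerivAt (fun h => y - γ h) (-v) 0 := hv.const_sub y
      have h2 := h1.norm_sq
      convert h2 using 1
      rw [inner_neg_right]; ring
    by_cases hlt : ‖y - γ 0‖ ^ 2 < M3 x y
    · rw [if_pos hlt]
      have hev : (fun h => g (min (‖y - γ h‖ ^ 2) (M3 x y))) =ᶠ[nhds 0]
          fun h => g (‖y - γ h‖ ^ 2) := by
        filter_upwards [hcγ.eventually (gt_mem_nhds hlt)] with h hh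
        rw [min_eq_left hh.le]
      refine HasDerivAt.congr_of_eventuallyEq ?_ hev
      have h3 : HasDerivAt g (deriv g (‖y - γ 0‖ ^ 2)) (‖y - γ 0‖ ^ 2) :=
        (hg.differentiable one_ne_zero).differentiableAt.hasDerivAt
      exact h3.comp (0:ℝ) hder
    · rw [if_neg hlt]
      have hgt : M3 x y < ‖y - γ 0‖ ^ 2 := lt_of_le_of_ne (not_lt.mp hlt) (Ne.symm hy)
      have hev : (fun h => g (min (‖y - γ h‖ ^ 2) (M3 x y))) =ᶠ[nhds 0]
          fun h => g (M3 x y) := by
        filter_upwards [hcγ.eventually (lt_mem_nhds hgt)] with h hh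
        rw [min_eq_right hh.le]
      exact (hasDerivAt_const (0:ℝ) (g (M3 x y))).congr_of_eventuallyEq hev

end

end Pool.Agent.R179.Per
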