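import Pool.Agent.R179.Per.F1

open MeasureTheory Metric Set

namespace Pool.Agent.R179.Per

abbrev P6 := ℝ × ((ℝ × ℝ) × (ℝ × (ℝ × ℝ)))

/-- coordinates on `ℝ⁶`: `(t, ((s, x), (z₁, (z₂, z₃))))`. -/
noncomputable def Phi (p : P6) : E6 :=
  !₂[p.2.1.1, p.2.1.2, p.1, p.2.2.1, p.2.2.2.1, p.2.2.2.2]

noncomputable def a3 : (Fin 3 → ℝ) ≃ᵐ ℝ × (ℝ × ℝ) :=
  (MeasurableEquiv.piFinSuccAbove (fun _ => ℝ) 0).trans
    ((MeasurableEquiv.refl ℝ).prodCongr MeasurableEquiv.finTwoArrow)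

noncomputable def a5 : (Fin 5 → ℝ) ≃ᵐ (ℝ × ℝ) × (ℝ × (ℝ × ℝ)) :=
  ((MeasurableEquiv.piFinSuccAbove (fun _ => ℝ) 0).trans
    ((MeasurableEquiv.refl ℝ).prodCongr
      ((MeasurableEquiv.piFinSuccAbove (fun _ => ℝ) 0).trans
        ((MeasurableEquiv.refl ℝ).prodCongr a3)))).trans
    MeasurableEquiv.prodAssoc.symm

noncomputable def a6 : (Fin 6 → ℝ) ≃ᵐ P6 :=
  (MeasurableEquiv.piFinSuccAbove (fun _ => ℝ) 2).trans
    ((MeasurableEquiv.refl ℝ).prodCongr a5)

theorem a3_mp : MeasurePreserving a3 := by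
  unfold a3
  refine (volume_preserving_piFinSuccAbove (fun _ => ℝ) 0).trans ?_
  exact (MeasurePreserving.id _).prod (volume_preserving_finTwoArrow ℝ)

theorem a5_mp : MeasurePreserving a5 := by
  unfold a5
  refine MeasurePreserving.trans (e := _) (e' := _) ?_ (volume_preserving_prodAssoc.symm _)
  refine (volume_preserving_piFinSuccAbove (fun _ => ℝ) 0).trans ?_
  refine (MeasurePreserving.id _).prod ?_
  refine (volume_preserving_piFinSuccAbove (fun _ => ℝ) 0).trans ?_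
  exact (MeasurePreserving.id _).prod a3_mp

theorem a6_mp : MeasurePreserving a6 := by
  unfold a6
  refine (volume_preserving_piFinSuccAbove (fun _ => ℝ) 2).trans ?_
  exact (MeasurePreserving.id _).prod a5_mp

theorem a6_apply (v : Fin 6 → ℝ) : a6 v = (v 2, ((v 0, v 1), (v 3, (v 4, v 5)))) := by
  rfl

noncomputable def PhiE : P6 ≃ᵐ E6 := a6.symm.trans (MeasurableEquiv.toLp 2 (Fin 6 → ℝ))

theorem PhiE_apply (p : P6) : PhiE p = Phi p := by
  have h1 : a6.symm p = ![p.2.1.1, p.2.1.2, p.1, p.2.2.1, p.2.2.2.1, p.2.2.2.2] := by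
    rw [MeasurableEquiv.symm_apply_eq, a6_apply]
    rfl
  show MeasurableEquiv.toLp 2 (Fin 6 → ℝ) (a6.symm p) = Phi p
  rw [h1]
  rfl

theorem Phi_mp : MeasurePreserving PhiE := by
  unfold PhiE
  exact a6_mp.symm.trans (EuclideanSpace.volume_preserving_symm_measurableEquiv_toLp (Fin 6)).symm

theorem int_E6 (f : E6 → ℝ) : ∫ y, f y = ∫ p : P6, f (Phi p) := by
  rw [← Phi_mp.integral_comp PhiE.measurableEmbedding]
  simp_rw [PhiE_apply]

theorem integrable_E6 (f : E6 → ℝ) (hf : Integrable f) : Integrable (fun p : P6 => f (Phi p)) := by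
  have := (Phi_mp.integrable_comp_emb PhiE.measurableEmbedding (g := f)).mpr hf
  refine this.congr (Filter.Eventually.of_forall fun p => ?_)
  simp [PhiE_apply]

end Pool.Agent.R179.Per
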