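import Pool.Agent.R179.Per.F2

open MeasureTheory Metric Set

namespace Pool.Agent.R179.Per

theorem cs_sq (f : ℝ → ℝ) (hc : HasCompactSupport f) (s : ℝ) :
    HasCompactSupport (fun t : ℝ => f (s + t ^ 2)) := by
  obtain ⟨R, hR0, hR⟩ := supp_bound f hc
  refine HasCompactSupport.intro (isCompact_closedBall (0:ℝ) (R + |s| + 1)) ?_
  intro t ht
  rw [mem_closedBall, Real.dist_eq, sub_zero, not_le] at ht
  apply hR
  have h1 := abs_nonneg s
  have h2 := neg_abs_le s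
  have h3 : (R + |s| + 1) * |t| ≤ |t| ^ 2 := by nlinarith [abs_nonneg t]
  rw [sq_abs] at h3
  nlinarith

theorem ioi_sq (f : ℝ → ℝ) (hf : ContDiff ℝ 1 f) (hc : HasCompactSupport f) (s Y : ℝ) :
    ∫ t in Ioi Y, 2 * t * deriv f (s + t ^ 2) = - f (s + Y ^ 2) := by
  have h1 : ContDiff ℝ 1 (fun t : ℝ => f (s + t ^ 2)) := by fun_prop
  have h2 := HasCompactSupport.integral_Ioi_deriv_eq h1 (cs_sq f hc s) Y
  rw [← h2]
  congr 1
  ext t
  have h3 : HasDerivAt (fun t : ℝ => s + t ^ 2) (2 * t) t := by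
    simpa using ((hasDerivAt_pow 2 t).const_add s)
  have h4 : HasDerivAt f (deriv f (s + t ^ 2)) (s + t ^ 2) :=
    (hf.differentiable one_ne_zero).differentiableAt.hasDerivAt
  have h5 := (h4.comp t h3).deriv
  simp only [Function.comp_def] at h5
  rw [h5]; ring

theorem rad2 (f : ℝ → ℝ) (hf : ContDiff ℝ 1 f) (hc : HasCompactSupport f) (s : ℝ) :
    ∫ p : ℝ × ℝ, deriv f (s + p.1 ^ 2 + p.2 ^ 2) = - Real.pi * f s := by
  rw [← integral_comp_polarCoord_symm]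
  have h1 : ∀ p : ℝ × ℝ, p.1 • deriv f (s + (polarCoord.symm p).1 ^ 2 + (polarCoord.symm p).2 ^ 2)
      = (p.1 * deriv f (s + p.1 ^ 2)) * (fun _ : ℝ => (1:ℝ)) p.2 := by
    intro p
    rw [polarCoord_symm_apply]
    have : s + (p.1 * Real.cos p.2) ^ 2 + (p.1 * Real.sin p.2) ^ 2 = s + p.1 ^ 2 := by
      nlinarith [Real.sin_sq_add_cos_sq p.2]
    simp only [this, smul_eq_mul, mul_one]
  simp_rw [h1]
  rw [polarCoord_target, Measure.volume_eq_prod,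
    setIntegral_prod_mul (fun r : ℝ => r * deriv f (s + r ^ 2)) (fun _ : ℝ => (1:ℝ))]
  have h2 := ioi_sq f hf hc s 0
  have h3 : ∫ t in Ioi (0:ℝ), 2 * t * deriv f (s + t ^ 2) =
      2 * ∫ t in Ioi (0:ℝ), t * deriv f (s + t ^ 2) := by
    rw [← integral_const_mul]; congr 1; ext t; ring
  rw [h3] at h2
  have h4 : ∫ _ in Ioo (-Real.pi) Real.pi, (1:ℝ) = 2 * Real.pi := by
    simp [Real.pi_pos.le]; ring
  rw [h4]
  have : s + (0:ℝ) ^ 2 = s := by ring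
  rw [this] at h2
  linear_combination Real.pi * h2

theorem rad3 (f : ℝ → ℝ) (hf : ContDiff ℝ 1 f) (hc : HasCompactSupport f) (s : ℝ) :
    ∫ p : ℝ × (ℝ × ℝ), deriv f (s + p.1 ^ 2 + p.2.1 ^ 2 + p.2.2 ^ 2) =
      - Real.pi * ∫ t : ℝ, f (s + t ^ 2) := by
  have hint : Integrable (fun p : ℝ × (ℝ × ℝ) => deriv f (s + p.1 ^ 2 + p.2.1 ^ 2 + p.2.2 ^ 2)) := by
    have h0 : Continuous (deriv f) := hf.continuous_deriv le_rfl
    refine (Continuous.integrable_of_hasCompactSupport (by fun_prop) ?_)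
    obtain ⟨R, hR0, hR⟩ := supp_bound (deriv f) hc.deriv
    refine HasCompactSupport.intro (isCompact_closedBall (0:ℝ × (ℝ × ℝ)) (R + |s| + 1)) ?_
    intro t ht
    apply hR
    rw [mem_closedBall, dist_zero_right, not_le, Prod.norm_def, Prod.norm_def, lt_max_iff, lt_max_iff] at ht
    simp only [Real.norm_eq_abs] at ht
    have h1 := abs_nonneg s
    have h2 := neg_abs_le s
    have key : ∀ t : ℝ, R + |s| + 1 < |t| → R + |s| ≤ t ^ 2 := by
      intro t ht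
      have h3 : (R + |s| + 1) * |t| ≤ |t| ^ 2 := by nlinarith [abs_nonneg t]
      rw [sq_abs] at h3
      nlinarith
    rcases ht with h | h | h
    · have := key _ h; nlinarith [sq_nonneg t.2.1, sq_nonneg t.2.2]
    · have := key _ h; nlinarith [sq_nonneg t.1, sq_nonneg t.2.2]
    · have := key _ h; nlinarith [sq_nonneg t.1, sq_nonneg t.2.1]
  rw [Measure.volume_eq_prod, integral_prod _ hint]
  rw [← integral_const_mul]
  congr 1
  ext t
  exact rad2 f hf hc (s + t ^ 2)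

/-- cone positivity -/
theorem cone_nonneg (hE : St_E) (φ : ℝ → ℝ) (hφ : Test φ) (s0 r0 l α β δ : ℝ) (hr0 : 0 < r0) :
    0 ≤ ∫ p : ℝ × ℝ, if (s0 ^ 2 + r0 ^ 2 < 2 * s0 * p.1 + 2 * r0 * p.2 ∧
        s0 ^ 2 + r0 ^ 2 - l ^ 2 < 2 * (s0 - l) * p.1 + 2 * r0 * p.2) then
      ∫ t : ℝ, -deriv φ ((p.1 - s0) ^ 2 + (p.2 - r0) ^ 2 + (α * p.1 + β * p.2 + δ) ^ 2 + t ^ 2) else 0 := by
  set a1 : ℝ := l / 2 with ha1
  set a2 : ℝ := (s0 ^ 2 + r0 ^ 2 - s0 * l) / (2 * r0) with ha2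
  have h2 : 2 * r0 * a2 = s0 ^ 2 + r0 ^ 2 - s0 * l := by
    rw [ha2]; field_simp
  set y0 : ℝ := α * a1 + β * a2 + δ with hy0
  rw [← integral_add_left_eq_self _ ((a1, a2) : ℝ × ℝ), ← integral_comp_polarCoord_symm]
  rw [polarCoord_target, Measure.volume_eq_prod, ← Measure.prod_restrict]
  by_cases hint : Integrable (fun p : ℝ × ℝ => p.1 • (fun q : ℝ × ℝ =>
      if (s0 ^ 2 + r0 ^ 2 < 2 * s0 * (((a1, a2) : ℝ × ℝ) + q).1 + 2 * r0 * (((a1, a2) : ℝ × ℝ) + q).2 ∧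
        s0 ^ 2 + r0 ^ 2 - l ^ 2 < 2 * (s0 - l) * (((a1, a2) : ℝ × ℝ) + q).1 +
          2 * r0 * (((a1, a2) : ℝ × ℝ) + q).2) then
      ∫ t : ℝ, -deriv φ (((((a1, a2) : ℝ × ℝ) + q).1 - s0) ^ 2 + ((((a1, a2) : ℝ × ℝ) + q).2 - r0) ^ 2 +
        (α * (((a1, a2) : ℝ × ℝ) + q).1 + β * (((a1, a2) : ℝ × ℝ) + q).2 + δ) ^ 2 + t ^ 2) else 0)
        (polarCoord.symm p))
      ((volume.restrict (Ioi (0:ℝ))).prod (volume.restrict (Ioo (-Real.pi) Real.pi)))
  · rw [integral_prod_symm _ hint]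
    refine integral_nonneg fun θ => ?_
    simp only [Pi.zero_apply, polarCoord_symm_apply, Prod.mk_add_mk, smul_eq_mul]
    set c := Real.cos θ with hc
    set s := Real.sin θ with hs
    have hcs : c ^ 2 + s ^ 2 = 1 := Real.cos_sq_add_sin_sq θ
    have e1 : ∀ ρ : ℝ, 2 * s0 * (a1 + ρ * c) + 2 * r0 * (a2 + ρ * s) =
        s0 ^ 2 + r0 ^ 2 + 2 * (ρ * (s0 * c + r0 * s)) := by
      intro ρ
      linear_combination h2 + 2 * s0 * ha1
    have e2 : ∀ ρ : ℝ, 2 * (s0 - l) * (a1 + ρ * c) + 2 * r0 * (a2 + ρ * s) =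
        s0 ^ 2 + r0 ^ 2 - l ^ 2 + 2 * (ρ * ((s0 - l) * c + r0 * s)) := by
      intro ρ
      linear_combination h2 + 2 * (s0 - l) * ha1
    simp only [e1, e2]
    by_cases hθ : 0 < s0 * c + r0 * s ∧ 0 < (s0 - l) * c + r0 * s
    · have hA : 0 < 1 + (α * c + β * s) ^ 2 := by positivity
      have hB : ((a1 - s0) * c + (a2 - r0) * s + y0 * (α * c + β * s)) ^ 2 ≤
          (1 + (α * c + β * s) ^ 2) * ((a1 - s0) ^ 2 + (a2 - r0) ^ 2 + y0 ^ 2) := by
        rw [← hcs]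
        nlinarith [sq_nonneg ((a1 - s0) * s - (a2 - r0) * c),
          sq_nonneg ((a1 - s0) * (α * c + β * s) - y0 * c),
          sq_nonneg ((a2 - r0) * (α * c + β * s) - y0 * s)]
      have := hE φ hφ (1 + (α * c + β * s) ^ 2)
        ((a1 - s0) * c + (a2 - r0) * s + y0 * (α * c + β * s))
        ((a1 - s0) ^ 2 + (a2 - r0) ^ 2 + y0 ^ 2) hA hB
      refine this.trans_eq ?_
      refine setIntegral_congr_fun measurableSet_Ioi fun ρ hρ => ?_
      have hρ0 : 0 < ρ := hρ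
      have c1 : s0 ^ 2 + r0 ^ 2 < s0 ^ 2 + r0 ^ 2 + 2 * (ρ * (s0 * c + r0 * s)) := by
        have : 0 < ρ * (s0 * c + r0 * s) := mul_pos hρ0 hθ.1
        linarith
      have c2 : s0 ^ 2 + r0 ^ 2 - l ^ 2 < s0 ^ 2 + r0 ^ 2 - l ^ 2 + 2 * (ρ * ((s0 - l) * c + r0 * s)) := by
        have : 0 < ρ * ((s0 - l) * c + r0 * s) := mul_pos hρ0 hθ.2
        linarith
      simp only [c1, c2, and_self, if_true]
      congr 1
      congr 1
      ext t
      congr 2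
      rw [hy0]
      linear_combination (-ρ ^ 2) * hcs
    · have : ∀ ρ ∈ Ioi (0:ℝ), (ρ * if s0 ^ 2 + r0 ^ 2 < s0 ^ 2 + r0 ^ 2 + 2 * (ρ * (s0 * c + r0 * s)) ∧
          s0 ^ 2 + r0 ^ 2 - l ^ 2 < s0 ^ 2 + r0 ^ 2 - l ^ 2 + 2 * (ρ * ((s0 - l) * c + r0 * s)) then
          ∫ t : ℝ, -deriv φ ((a1 + ρ * c - s0) ^ 2 + (a2 + ρ * s - r0) ^ 2 +
          (α * (a1 + ρ * c) + β * (a2 + ρ * s) + δ) ^ 2 + t ^ 2) else 0) = 0 := by
        intro ρ hρ
        have hρ0 : 0 < ρ := hρ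
        rw [if_neg, mul_zero]
        rintro ⟨c1, c2⟩
        apply hθ
        constructor
        · have : 0 < ρ * (s0 * c + r0 * s) := by linarith
          exact (pos_iff_pos_of_mul_pos this).mp hρ0
        · have : 0 < ρ * ((s0 - l) * c + r0 * s) := by linarith
          exact (pos_iff_pos_of_mul_pos this).mp hρ0
      rw [setIntegral_congr_fun measurableSet_Ioi this]
      simp
  · rw [integral_undef hint]

end Pool.Agent.R179.Per
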