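import Pool.Agent.R179.Per.F3

open MeasureTheory Metric Set

namespace Pool.Agent.R179.Per

theorem nPhi (p : P6) (b0 b1 b2 : ℝ) : ‖Phi p - !₂[b0, b1, b2, 0, 0, 0]‖ ^ 2 =
    (p.2.1.1 - b0) ^ 2 + (p.2.1.2 - b1) ^ 2 + (p.1 - b2) ^ 2 +
      (p.2.2.1 ^ 2 + p.2.2.2.1 ^ 2 + p.2.2.2.2 ^ 2) := by
  rw [EuclideanSpace.norm_sq_eq, Fin.sum_univ_six]
  simp only [PiLp.sub_apply, Phi, Real.norm_eq_abs, sq_abs]
  simp
  ring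

theorem iPhi (p : P6) (b0 b1 b2 r : ℝ) :
    inner ℝ (Phi p - !₂[b0, b1, b2, 0, 0, 0]) (!₂[0, 0, r, 0, 0, 0] : E6) = (p.1 - b2) * r := by
  rw [PiLp.inner_apply, Fin.sum_univ_six]
  simp [Phi]
  ring

theorem test_d1 {φ : ℝ → ℝ} (hφ : Test φ) : ContDiff ℝ 3 (deriv φ) := by
  have h : ContDiff ℝ (3 + 1) φ := by
    convert hφ.smooth using 1
    norm_num
  exact (contDiff_succ_iff_deriv.mp h).2.2

theorem test_d2 {φ : ℝ → ℝ} (hφ : Test φ) : ContDiff ℝ 2 (deriv (deriv φ)) := by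
  have h : ContDiff ℝ (2 + 1) (deriv φ) := by
    convert test_d1 hφ using 1
    norm_num
  exact (contDiff_succ_iff_deriv.mp h).2.2

/-- fixed points -/
noncomputable def X3 (l s1 r1 τ : ℝ) (i : Fin 3) : E6 :=
  if i = 0 then !₂[s1, r1 * Real.cos τ, -(r1 * Real.sin τ), 0, 0, 0]
  else if i = 1 then !₂[0, 0, 0, 0, 0, 0] else !₂[l, 0, 0, 0, 0, 0]

theorem D0_nonneg (hE : St_E) (φ : ℝ → ℝ) (hφ : Test φ) (l s0 s1 r0 r1 τ : ℝ) (hr0 : 0 < r0)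
    (hr1 : 0 < r1) (hτ : τ ∈ Ioo 0 Real.pi)
    (hint : Integrable (fun y : E6 => if ‖y - !₂[s0, r0, 0, 0, 0, 0]‖ ^ 2 < M3 (X3 l s1 r1 τ) y then
      deriv (deriv (deriv φ)) (‖y - !₂[s0, r0, 0, 0, 0, 0]‖ ^ 2) *
        (-2 * inner ℝ (y - !₂[s0, r0, 0, 0, 0, 0]) (!₂[0, 0, r0, 0, 0, 0] : E6)) else 0)) :
    0 ≤ ∫ y : E6, if ‖y - !₂[s0, r0, 0, 0, 0, 0]‖ ^ 2 < M3 (X3 l s1 r1 τ) y then
      deriv (deriv (deriv φ)) (‖y - !₂[s0, r0, 0, 0, 0, 0]‖ ^ 2) *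
        (-2 * inner ℝ (y - !₂[s0, r0, 0, 0, 0, 0]) (!₂[0, 0, r0, 0, 0, 0] : E6)) else 0 := by
  have hsin : 0 < Real.sin τ := Real.sin_pos_of_pos_of_lt_pi hτ.1 hτ.2
  have hφ1 : ContDiff ℝ 3 (deriv φ) := test_d1 hφ
  have hφ2 : ContDiff ℝ 2 (deriv (deriv φ)) := test_d2 hφ
  have hc1 : HasCompactSupport (deriv φ) := hφ.cpt.deriv
  have hc2 : HasCompactSupport (deriv (deriv φ)) := hc1.deriv
  -- coordinates of the bisector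
  set K : ℝ := 2 * r1 * Real.sin τ with hK
  have hK0 : 0 < K := by positivity
  set α : ℝ := (2 * s1 - 2 * s0) / K with hα
  set β : ℝ := (2 * r1 * Real.cos τ - 2 * r0) / K with hβ
  set δ : ℝ := (s0 ^ 2 + r0 ^ 2 - s1 ^ 2 - r1 ^ 2) / K with hδ
  set Y : ℝ × ℝ → ℝ := fun u => α * u.1 + β * u.2 + δ with hY
  set W : ℝ × ℝ → Prop := fun u => s0 ^ 2 + r0 ^ 2 < 2 * s0 * u.1 + 2 * r0 * u.2 ∧
        s0 ^ 2 + r0 ^ 2 - l ^ 2 < 2 * (s0 - l) * u.1 + 2 * r0 * u.2 with hW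
  have hKY : ∀ u : ℝ × ℝ, K * Y u = (2 * s1 - 2 * s0) * u.1 + (2 * r1 * Real.cos τ - 2 * r0) * u.2 +
      (s0 ^ 2 + r0 ^ 2 - s1 ^ 2 - r1 ^ 2) := by
    intro u
    rw [hY, hα, hβ, hδ]
    field_simp
  -- the integrand in coordinates
  have hcoord : ∀ p : P6, (if ‖Phi p - !₂[s0, r0, 0, 0, 0, 0]‖ ^ 2 < M3 (X3 l s1 r1 τ) (Phi p) then
      deriv (deriv (deriv φ)) (‖Phi p - !₂[s0, r0, 0, 0, 0, 0]‖ ^ 2) *
        (-2 * inner ℝ (Phi p - !₂[s0, r0, 0, 0, 0, 0]) (!₂[0, 0, r0, 0, 0, 0] : E6)) else 0) =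
      if (W p.2.1 ∧ Y p.2.1 < p.1) then
        deriv (deriv (deriv φ)) (((p.2.1.1 - s0) ^ 2 + (p.2.1.2 - r0) ^ 2 +
          (p.2.2.1 ^ 2 + p.2.2.2.1 ^ 2 + p.2.2.2.2 ^ 2)) + p.1 ^ 2) * (-2 * (p.1 * r0)) else 0 := by
    intro p
    have hM : M3 (X3 l s1 r1 τ) (Phi p) =
      min ((p.2.1.1 - s1) ^ 2 + (p.2.1.2 - r1 * Real.cos τ) ^ 2 + (p.1 - -(r1 * Real.sin τ)) ^ 2 +
      (p.2.2.1 ^ 2 + p.2.2.2.1 ^ 2 + p.2.2.2.2 ^ 2)) (min ((p.2.1.1 - 0) ^ 2 + (p.2.1.2 - 0) ^ 2 +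
      (p.1 - 0) ^ 2 + (p.2.2.1 ^ 2 + p.2.2.2.1 ^ 2 + p.2.2.2.2 ^ 2))
      ((p.2.1.1 - l) ^ 2 + (p.2.1.2 - 0) ^ 2 +
      (p.1 - 0) ^ 2 + (p.2.2.1 ^ 2 + p.2.2.2.1 ^ 2 + p.2.2.2.2 ^ 2))) := by
      unfold M3 X3
      simp only [Fin.isValue, ↓reduceIte, one_ne_zero, Fin.reduceEq]
      rw [nPhi, nPhi, nPhi]
    rw [hM, nPhi, iPhi]
    have hcond : ((p.2.1.1 - s0) ^ 2 + (p.2.1.2 - r0) ^ 2 + (p.1 - 0) ^ 2 +
      (p.2.2.1 ^ 2 + p.2.2.2.1 ^ 2 + p.2.2.2.2 ^ 2) <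
      min ((p.2.1.1 - s1) ^ 2 + (p.2.1.2 - r1 * Real.cos τ) ^ 2 + (p.1 - -(r1 * Real.sin τ)) ^ 2 +
      (p.2.2.1 ^ 2 + p.2.2.2.1 ^ 2 + p.2.2.2.2 ^ 2)) (min ((p.2.1.1 - 0) ^ 2 + (p.2.1.2 - 0) ^ 2 +
      (p.1 - 0) ^ 2 + (p.2.2.1 ^ 2 + p.2.2.2.1 ^ 2 + p.2.2.2.2 ^ 2))
      ((p.2.1.1 - l) ^ 2 + (p.2.1.2 - 0) ^ 2 +
      (p.1 - 0) ^ 2 + (p.2.2.1 ^ 2 + p.2.2.2.1 ^ 2 + p.2.2.2.2 ^ 2)))) ↔ (W p.2.1 ∧ Y p.2.1 < p.1) := by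
      rw [lt_min_iff, lt_min_iff]
      have hk := hKY p.2.1
      have hsc := Real.sin_sq_add_cos_sq τ
      have e1 : ((p.2.1.1 - s1) ^ 2 + (p.2.1.2 - r1 * Real.cos τ) ^ 2 + (p.1 - -(r1 * Real.sin τ)) ^ 2 +
          (p.2.2.1 ^ 2 + p.2.2.2.1 ^ 2 + p.2.2.2.2 ^ 2)) -
          ((p.2.1.1 - s0) ^ 2 + (p.2.1.2 - r0) ^ 2 + (p.1 - 0) ^ 2 +
          (p.2.2.1 ^ 2 + p.2.2.2.1 ^ 2 + p.2.2.2.2 ^ 2)) = K * (p.1 - Y p.2.1) := by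
        rw [mul_sub, hk, hK]
        linear_combination r1 ^ 2 * hsc
      constructor
      · rintro ⟨h1, h2, h3⟩
        refine ⟨⟨by linarith, by linarith⟩, ?_⟩
        have : 0 < K * (p.1 - Y p.2.1) := by rw [← e1]; linarith
        have := (pos_iff_pos_of_mul_pos this).mp hK0
        linarith
      · rintro ⟨⟨h1, h2⟩, h3⟩
        have : 0 < K * (p.1 - Y p.2.1) := mul_pos hK0 (by linarith)
        rw [← e1] at this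
        refine ⟨by linarith, by linarith, by linarith⟩
    simp only [hcond]
    congr 1
    rw [sub_zero]
    congr 2
    ring
  have hint2 := integrable_E6 _ hint
  rw [int_E6]
  simp_rw [hcoord] at hint2 ⊢
  rw [Measure.volume_eq_prod] at hint2 ⊢
  rw [integral_prod_symm _ hint2]
  have hint3 := hint2.integral_prod_right
  -- inner integral
  have hinner : ∀ w : (ℝ × ℝ) × (ℝ × (ℝ × ℝ)), (∫ t : ℝ, if (W w.1 ∧ Y w.1 < t) then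
        deriv (deriv (deriv φ)) (((w.1.1 - s0) ^ 2 + (w.1.2 - r0) ^ 2 +
          (w.2.1 ^ 2 + w.2.2.1 ^ 2 + w.2.2.2 ^ 2)) + t ^ 2) * (-2 * (t * r0)) else 0) =
      if W w.1 then r0 * deriv (deriv φ) ((w.1.1 - s0) ^ 2 + (w.1.2 - r0) ^ 2 + (Y w.1) ^ 2 +
        w.2.1 ^ 2 + w.2.2.1 ^ 2 + w.2.2.2 ^ 2) else 0 := by
    intro w
    by_cases hw : W w.1
    · simp only [hw, true_and, if_true]
      have h1 := ioi_sq (deriv (deriv φ)) (hφ2.of_le (by norm_num)) hc2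
        ((w.1.1 - s0) ^ 2 + (w.1.2 - r0) ^ 2 + (w.2.1 ^ 2 + w.2.2.1 ^ 2 + w.2.2.2 ^ 2)) (Y w.1)
      have h2 : (fun t : ℝ => if Y w.1 < t then
        deriv (deriv (deriv φ)) (((w.1.1 - s0) ^ 2 + (w.1.2 - r0) ^ 2 +
          (w.2.1 ^ 2 + w.2.2.1 ^ 2 + w.2.2.2 ^ 2)) + t ^ 2) * (-2 * (t * r0)) else 0) =
          (Ioi (Y w.1)).indicator (fun t => (-r0) * (2 * t * deriv (deriv (deriv φ))
            (((w.1.1 - s0) ^ 2 + (w.1.2 - r0) ^ 2 +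
          (w.2.1 ^ 2 + w.2.2.1 ^ 2 + w.2.2.2 ^ 2)) + t ^ 2))) := by
        ext t
        by_cases ht : Y w.1 < t
        · rw [if_pos ht, indicator_of_mem (by exact ht)]; ring
        · rw [if_neg ht, indicator_of_notMem (by exact ht)]
      rw [h2, integral_indicator measurableSet_Ioi, integral_const_mul, h1]
      rw [neg_mul_neg]
      congr 2
      ring
    · simp [hw]
  simp_rw [hinner] at hint3 ⊢
  rw [Measure.volume_eq_prod] at hint3 ⊢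
  rw [integral_prod _ hint3]
  -- radial integral
  have hrad : ∀ u : ℝ × ℝ, (∫ z : ℝ × (ℝ × ℝ), if W u then r0 * deriv (deriv φ)
      ((u.1 - s0) ^ 2 + (u.2 - r0) ^ 2 + (Y u) ^ 2 + z.1 ^ 2 + z.2.1 ^ 2 + z.2.2 ^ 2) else 0) =
      (r0 * Real.pi) * if W u then ∫ t : ℝ, -deriv φ ((u.1 - s0) ^ 2 + (u.2 - r0) ^ 2 +
        (α * u.1 + β * u.2 + δ) ^ 2 + t ^ 2) else 0 := by
    intro u
    by_cases hu : W u
    · simp only [hu, if_true]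
      rw [integral_const_mul, rad3 (deriv φ) (hφ1.of_le (by norm_num)) hc1, integral_neg]
      ring
    · simp [hu]
  simp_rw [hrad]
  rw [integral_const_mul]
  have := cone_nonneg hE φ hφ s0 r0 l α β δ hr0
  exact mul_nonneg (by positivity) this

end Pool.Agent.R179.Per
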