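import Pool.Agent.R179.Per.F4

open MeasureTheory Metric Set

namespace Pool.Agent.R179.Per

noncomputable def gam (s0 r0 h : ℝ) : E6 :=
  (!₂[s0, 0, 0, 0, 0, 0] : E6) + Real.cos h • (!₂[0, r0, 0, 0, 0, 0] : E6) +
    Real.sin h • (!₂[0, 0, r0, 0, 0, 0] : E6)

theorem gam_eq (s0 r0 h : ℝ) : gam s0 r0 h = !₂[s0, r0 * Real.cos h, r0 * Real.sin h, 0, 0, 0] := by
  ext i
  fin_cases i <;> simp [gam] <;> ring

theorem gam_zero (s0 r0 : ℝ) : gam s0 r0 0 = !₂[s0, r0, 0, 0, 0, 0] := by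
  rw [gam_eq]; simp

theorem gam_lip (s0 r0 h h' : ℝ) : ‖gam s0 r0 h - gam s0 r0 h'‖ ≤
    (‖(!₂[0, r0, 0, 0, 0, 0] : E6)‖ + ‖(!₂[0, 0, r0, 0, 0, 0] : E6)‖) * |h - h'| := by
  have e : gam s0 r0 h - gam s0 r0 h' = (Real.cos h - Real.cos h') • (!₂[0, r0, 0, 0, 0, 0] : E6) +
      (Real.sin h - Real.sin h') • (!₂[0, 0, r0, 0, 0, 0] : E6) := by
    unfold gam; module
  rw [e]
  refine (norm_add_le _ _).trans ?_
  rw [norm_smul, norm_smul]
  have h1 : ‖Real.cos h - Real.cos h'‖ ≤ |h - h'| := by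
    have := Real.lipschitzWith_cos.dist_le_mul h h'
    simpa [Real.dist_eq] using this
  have h2 : ‖Real.sin h - Real.sin h'‖ ≤ |h - h'| := by
    have := Real.lipschitzWith_sin.dist_le_mul h h'
    simpa [Real.dist_eq] using this
  nlinarith [norm_nonneg (!₂[0, r0, 0, 0, 0, 0] : E6), norm_nonneg (!₂[0, 0, r0, 0, 0, 0] : E6)]

theorem gam_deriv (s0 r0 : ℝ) : HasDerivAt (gam s0 r0) (!₂[0, 0, r0, 0, 0, 0] : E6) 0 := by
  have h1 := (Real.hasDerivAt_cos 0).smul_const (!₂[0, r0, 0, 0, 0, 0] : E6)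
  have h2 := (Real.hasDerivAt_sin 0).smul_const (!₂[0, 0, r0, 0, 0, 0] : E6)
  have h3 := (h1.const_add (!₂[s0, 0, 0, 0, 0, 0] : E6)).add h2
  have e : (-Real.sin 0) • (!₂[0, r0, 0, 0, 0, 0] : E6) + Real.cos 0 • (!₂[0, 0, r0, 0, 0, 0] : E6) =
      !₂[0, 0, r0, 0, 0, 0] := by simp
  rw [e] at h3
  exact h3

/-- rotated configuration -/
noncomputable def Kc (l s0 s1 r0 r1 τ h : ℝ) (i : Fin 4) : E6 :=
  if i = 0 then gam s0 r0 h else if i = 1 then X3 l s1 r1 τ 0 else if i = 2 then X3 l s1 r1 τ 1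
  else X3 l s1 r1 τ 2

theorem dist_sq6 (x y : E6) : dist x y = Real.sqrt ((x 0 - y 0) ^ 2 + (x 1 - y 1) ^ 2 +
    (x 2 - y 2) ^ 2 + (x 3 - y 3) ^ 2 + (x 4 - y 4) ^ 2 + (x 5 - y 5) ^ 2) := by
  rw [EuclideanSpace.dist_eq, Fin.sum_univ_six]
  simp [Real.dist_eq, sq_abs]

theorem dist_Kc (l s0 s1 r0 r1 τ h : ℝ) (i j : Fin 4) :
    dist (hinge l s0 s1 r0 r1 (τ + h) i) (hinge l s0 s1 r0 r1 (τ + h) j) =
      dist (Kc l s0 s1 r0 r1 τ h i) (Kc l s0 s1 r0 r1 τ h j) := by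
  rw [dist_sq6, dist_sq6]
  congr 1
  have hsc := Real.sin_sq_add_cos_sq τ
  have hsch := Real.sin_sq_add_cos_sq h
  have hscs := Real.sin_sq_add_cos_sq (τ + h)
  rw [Real.cos_add, Real.sin_add] at hscs
  fin_cases i <;> fin_cases j <;> simp [hinge, Kc, X3, gam_eq, Real.cos_add, Real.sin_add] <;>
    first
      | linear_combination r0 ^ 2 * hscs - r0 ^ 2 * hsch - r1 ^ 2 * hsc
      | linear_combination r0 ^ 2 * hscs - r0 ^ 2 * hsch
      | linear_combination - r1 ^ 2 * hsc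

theorem hinge_deriv (hE : St_E) (hG : St_G) (φ : ℝ → ℝ) (hφ : Test φ) (l s0 s1 r0 r1 τ : ℝ)
    (hr0 : 0 < r0) (hr1 : 0 < r1) (hτ : τ ∈ Ioo 0 Real.pi) :
    ∃ d : ℝ, 0 ≤ d ∧ HasDerivAt (fun τ => J φ (hinge l s0 s1 r0 r1 τ)) d τ := by
  have hsin : 0 < Real.sin τ := Real.sin_pos_of_pos_of_lt_pi hτ.1 hτ.2
  have hφ2 : ContDiff ℝ 2 (deriv (deriv φ)) := test_d2 hφ
  have hc2 : HasCompactSupport (deriv (deriv φ)) := hφ.cpt.deriv.deriv
  have hne : ∀ i, gam s0 r0 0 ≠ X3 l s1 r1 τ i := by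
    intro i
    rw [gam_zero]
    fin_cases i
    · intro h
      have := congrArg (fun v : E6 => v 2) h
      simp [X3] at this
      rcases this with h | h <;> linarith
    · intro h
      have := congrArg (fun v : E6 => v 1) h
      simp [X3] at this
      linarith
    · intro h
      have := congrArg (fun v : E6 => v 1) h
      simp [X3] at this
      linarith
  have main := hasDerivAt_J (deriv (deriv φ)) (hφ2.of_le (by norm_num)) hc2 (gam s0 r0)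
    (!₂[0, 0, r0, 0, 0, 0] : E6) (‖(!₂[0, r0, 0, 0, 0, 0] : E6)‖ + ‖(!₂[0, 0, r0, 0, 0, 0] : E6)‖)
    (by positivity) (gam_lip s0 r0) (gam_deriv s0 r0) (X3 l s1 r1 τ) hne
  rw [gam_zero] at main
  obtain ⟨hint, hder⟩ := main
  refine ⟨_, D0_nonneg hE φ hφ l s0 s1 r0 r1 τ hr0 hr1 hτ hint, ?_⟩
  have h1 : (fun h => ∫ y : E6, deriv (deriv φ) (min (‖y - gam s0 r0 h‖ ^ 2) (M3 (X3 l s1 r1 τ) y))) =
      fun h => J φ (hinge l s0 s1 r0 r1 (τ + h)) := by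
    ext h
    rw [hG φ _ _ (dist_Kc l s0 s1 r0 r1 τ h)]
    unfold J
    congr 1
    ext y
    rw [iInf_fin4]
    simp only [Kc, M3, dist_eq_norm]
    rfl
  rw [h1] at hder
  rw [← sub_self τ] at hder
  have h3 := hder.comp_sub_const τ τ
  simpa using h3

theorem f_of (hE : St_E) (hG : St_G) : St_F := by
  intro φ hφ l s0 s1 r0 r1 hl hr0 hr1
  have key := fun τ hτ => hinge_deriv hE hG φ hφ l s0 s1 r0 r1 τ hr0 hr1 hτ
  refine monotoneOn_of_deriv_nonneg (convex_Ioo 0 Real.pi) ?_ ?_ ?_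
  · intro τ hτ
    obtain ⟨d, _, hd⟩ := key τ hτ
    exact hd.continuousAt.continuousWithinAt
  · intro τ hτ
    rw [interior_Ioo] at hτ
    obtain ⟨d, _, hd⟩ := key τ hτ
    exact hd.differentiableAt.differentiableWithinAt
  · intro τ hτ
    rw [interior_Ioo] at hτ
    obtain ⟨d, h0, hd⟩ := key τ hτ
    rw [hd.deriv]; exact h0

end Pool.Agent.R179.Per
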