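import Pool.Agent.R179.Per.Defs

open MeasureTheory Metric Set

namespace Pool.Agent.R179.Per

/-- PER-A: the perimeter is a constant times the total exposed angle. -/
def St_A : Prop := ∃ c : ENNReal, c ≠ 0 ∧ c ≠ ⊤ ∧ ∀ S : Finset Pl,
  Measure.hausdorffMeasure 1 (frontier (⋃ a ∈ S, closedBall a 1)) = c * ENNReal.ofReal (T S 1)

/-- PER-B: a failing pair of five points. -/
def St_B : Prop := ∃ p q : Fin 5 → Pl, (∀ i j, dist (q i) (q j) ≤ dist (p i) (p j)) ∧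
  T (im p) 1 < T (im q) 1

/-- PER-C: test functions determine the total exposed angle. -/
def St_C : Prop := ∀ p q : Fin 4 → Pl,
  (∀ φ : ℝ → ℝ, Test φ → I2 φ q ≤ I2 φ p) → T (im q) 1 ≤ T (im p) 1

/-- PER-D: the lift of a planar configuration. -/
def St_D : Prop := ∀ φ : ℝ → ℝ, Test φ → ∀ p : Fin 4 → Pl,
  J φ (lift 0 p) = Real.pi ^ 2 * I2 φ p

/-- PER-E: positivity along rays. -/
def St_E : Prop := ∀ φ : ℝ → ℝ, Test φ → ∀ A B C : ℝ, 0 < A → B ^ 2 ≤ A * C →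
  0 ≤ ∫ ρ in Ioi (0:ℝ), ρ * ∫ t : ℝ, -deriv φ (A * ρ ^ 2 + 2 * B * ρ + C + t ^ 2)

/-- PER-F: monotonicity of the hinge. -/
def St_F : Prop := ∀ φ : ℝ → ℝ, Test φ → ∀ l s0 s1 r0 r1 : ℝ, 0 < l → 0 < r0 → 0 < r1 →
  MonotoneOn (fun τ => J φ (hinge l s0 s1 r0 r1 τ)) (Ioo 0 Real.pi)

/-- PER-G: `J` depends only on the distances. -/
def St_G : Prop := ∀ φ : ℝ → ℝ, ∀ x y : Fin 4 → E6, (∀ i j, dist (x i) (x j) = dist (y i) (y j)) →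
  J φ x = J φ y

/-- PER-H: hinge coordinates of a matrix of strict negative type. -/
def St_H : Prop := ∀ ε > 0, ∀ D : Fin 4 → Fin 4 → ℝ, NT ε D →
  ∃ l s0 s1 r0 r1 τ : ℝ, 0 < l ∧ 0 < r0 ∧ 0 < r1 ∧ τ ∈ Ioo 0 Real.pi ∧
    D 2 3 = l ^ 2 ∧ D 2 0 = s0 ^ 2 + r0 ^ 2 ∧ D 3 0 = (s0 - l) ^ 2 + r0 ^ 2 ∧
    D 2 1 = s1 ^ 2 + r1 ^ 2 ∧ D 3 1 = (s1 - l) ^ 2 + r1 ^ 2 ∧
    D 0 1 = (s0 - s1) ^ 2 + r0 ^ 2 + r1 ^ 2 - 2 * r0 * r1 * Real.cos τ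

/-- PER-I: staircase lemma. -/
def St_I : Prop := ∀ F : (Fin 4 → Fin 4 → ℝ) → ℝ,
  (∀ ε > 0, ∀ D D' : Fin 4 → Fin 4 → ℝ, NT ε D → NT ε D' →
    ∀ a b : Fin 4, a ≠ b → D' a b ≤ D a b →
    (∀ i j, ¬ ((i = a ∧ j = b) ∨ (i = b ∧ j = a)) → D' i j = D i j) → F D' ≤ F D) →
  ∀ ε > 0, ∀ D D' : Fin 4 → Fin 4 → ℝ, NT ε D → NT ε D' → (∀ i j, D' i j ≤ D i j) → F D' ≤ F D

/-- PER-K: continuity at `δ = 0`. -/
def St_K : Prop := ∀ φ : ℝ → ℝ, Test φ → ∀ p : Fin 4 → Pl,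
  Filter.Tendsto (fun δ => J φ (lift δ p)) (nhdsWithin 0 (Ioi 0)) (nhds (J φ (lift 0 p)))

end Pool.Agent.R179.Per
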