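import Pool.Agent.R179.Per.P4
import Pool.Agent.R179.Per.B3
import Pool.Agent.R91.PerA
import Pool.Agent.R91.PerE
import Pool.Agent.R662.PerC
import Pool.Agent.R928.PER.PerD
import Pool.Agent.R971.Per.PerG
import Pool.Agent.R971.Per.PerH

open MeasureTheory Metric Set

namespace Pool.Agent.R179.Per

theorem P_four : P 4 :=
  P4_of R91.PerA.a_ok R662.PerC.c_ok R928.PER.d_ok R91.PerE.e_ok R971.Per.g_ok R971.Per.h_ok
    R971.Per.i_ok R971.Per.k_ok

theorem not_P_five : ¬ P 5 := notP5_of R91.PerA.a_ok b_ok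

theorem norm_e (θ : ℝ) : ‖e θ‖ = 1 := by
  rw [EuclideanSpace.norm_eq, Fin.sum_univ_two]
  simp [e, Real.cos_sq_add_sin_sq]

open Classical in
theorem T_insert (S : Finset Pl) (z : Pl) (hz : ∀ b ∈ S, 2 ≤ dist z b) :
    T (insert z S) 1 = 2 * Real.pi + T S 1 := by
  have hzS : z ∉ S := by
    intro h
    have := hz z h
    simp at this
    linarith
  have key : ∀ a b : Pl, 2 ≤ dist a b → ∀ θ : ℝ, 1 ≤ dist (a + (1:ℝ) • e θ) b := by
    intro a b hab θ
    have h1 : dist a b ≤ dist a (a + (1:ℝ) • e θ) + dist (a + (1:ℝ) • e θ) b := dist_triangle _ _ _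
    have h2 : dist a (a + (1:ℝ) • e θ) = 1 := by
      rw [dist_self_add_right, one_smul, norm_e]
    linarith
  unfold T
  rw [Finset.sum_insert hzS]
  congr 1
  · have : exposed (insert z S) 1 z = Ioc (-Real.pi) Real.pi := by
      ext θ
      constructor
      · exact fun h => h.1
      · intro h
        refine ⟨h, fun b hb => ?_⟩
        rcases Finset.mem_insert.mp hb with rfl | hb
        · rw [dist_self_add_left, one_smul, norm_e]
        · exact key z b (hz b hb) θ
    rw [this, Real.volume_Ioc, ENNReal.toReal_ofReal (by linarith [Real.pi_pos])]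
    ring
  · refine Finset.sum_congr rfl fun a ha => ?_
    congr 2
    ext θ
    constructor
    · exact fun h => ⟨h.1, fun b hb => h.2 b (Finset.mem_insert_of_mem hb)⟩
    · intro h
      refine ⟨h.1, fun b hb => ?_⟩
      rcases Finset.mem_insert.mp hb with rfl | hb
      · exact key a b (by rw [dist_comm]; exact hz a ha) θ
      · exact h.2 b hb

open Classical in
theorem im_cons {n : ℕ} (z : Pl) (p : Fin n → Pl) :
    im (Fin.cons z p : Fin (n + 1) → Pl) = insert z (im p) := by
  ext b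
  rw [im_eq, Finset.mem_insert, im_eq]
  constructor
  · rintro ⟨i, hi⟩
    refine Fin.cases (fun hi => ?_) (fun j hi => ?_) i hi
    · left; simpa using hi.symm
    · right; exact ⟨j, by simpa using hi⟩
  · rintro (rfl | ⟨j, hj⟩)
    · exact ⟨0, by simp⟩
    · exact ⟨j.succ, by simpa using hj⟩

theorem P_pred (n : ℕ) (h : P (n + 1)) : P n := by
  intro p q hpq
  obtain ⟨c, hc0, hct, hc⟩ := R91.PerA.a_ok
  obtain ⟨M, hM0, hMp, hMq⟩ : ∃ M : ℝ, 0 ≤ M ∧ (∀ i, ‖p i‖ ≤ M) ∧ ∀ i, ‖q i‖ ≤ M := by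
    refine ⟨∑ i, ‖p i‖ + ∑ i, ‖q i‖, by positivity, fun i => ?_, fun i => ?_⟩
    · have h1 := Finset.single_le_sum (f := fun i => ‖p i‖) (fun i _ => norm_nonneg _)
        (Finset.mem_univ i)
      have h2 : 0 ≤ ∑ i, ‖q i‖ := by positivity
      linarith
    · have h1 := Finset.single_le_sum (f := fun i => ‖q i‖) (fun i _ => norm_nonneg _)
        (Finset.mem_univ i)
      have h2 : 0 ≤ ∑ i, ‖p i‖ := by positivity
      linarith
  set zp : Pl := !₂[3 * M + 3, 0] with hzp
  set zq : Pl := !₂[M + 3, 0] with hzq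
  have nzp : ‖zp‖ = 3 * M + 3 := by
    rw [EuclideanSpace.norm_eq, Fin.sum_univ_two]
    simp [hzp, Real.sqrt_sq_eq_abs, abs_of_nonneg (show (0:ℝ) ≤ 3 * M + 3 by linarith)]
  have nzq : ‖zq‖ = M + 3 := by
    rw [EuclideanSpace.norm_eq, Fin.sum_univ_two]
    simp [hzq, Real.sqrt_sq_eq_abs, abs_of_nonneg (show (0:ℝ) ≤ M + 3 by linarith)]
  have dp : ∀ i, 2 * M + 3 ≤ dist zp (p i) := by
    intro i
    rw [dist_eq_norm]
    have := norm_sub_norm_le zp (p i)
    have := hMp i
    linarith
  have dq : ∀ i, 2 ≤ dist zq (q i) ∧ dist zq (q i) ≤ 2 * M + 3 := by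
    intro i
    rw [dist_eq_norm]
    have h1 := norm_sub_norm_le zq (q i)
    have h2 := norm_sub_le zq (q i)
    have := hMq i
    constructor <;> linarith
  have h1 := h (Fin.cons zp p) (Fin.cons zq q) (by
    intro i j
    refine Fin.cases ?_ (fun i => ?_) i <;> refine Fin.cases ?_ (fun j => ?_) j
    · simp
    · simp only [Fin.cons_zero, Fin.cons_succ]
      exact (dq j).2.trans (dp j)
    · simp only [Fin.cons_zero, Fin.cons_succ]
      rw [dist_comm, dist_comm (p i)]
      exact (dq i).2.trans (dp i)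
    · simp only [Fin.cons_succ]
      exact hpq i j)
  rw [per_eq c hc, per_eq c hc, ENNReal.mul_le_mul_iff_right hc0 hct] at h1
  rw [im_cons, im_cons, T_insert, T_insert] at h1
  · have h2 : 0 ≤ 2 * Real.pi + T (im p) 1 := by
      have : 0 ≤ T (im p) 1 := Finset.sum_nonneg fun _ _ => ENNReal.toReal_nonneg
      have := Real.pi_pos
      linarith
    rw [ENNReal.ofReal_le_ofReal_iff h2] at h1
    rw [per_eq c hc, per_eq c hc]
    have : T (im q) 1 ≤ T (im p) 1 := by linarith
    gcongr
  · intro b hb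
    obtain ⟨j, rfl⟩ := (im_eq p _).mp hb
    have := dp j
    linarith
  · intro b hb
    obtain ⟨j, rfl⟩ := (im_eq q _).mp hb
    exact (dq j).1

theorem P_of_le {m n : ℕ} (h : m ≤ n) (hn : P n) : P m := by
  induction n, h using Nat.le_induction with
  | base => exact hn
  | succ k _ ih => exact ih (P_pred k hn)

theorem P_iff (n : ℕ) : P n ↔ n ≤ 4 := by
  constructor
  · intro h
    by_contra hn
    exact not_P_five (P_of_le (by omega) h)
  · intro h
    exact P_of_le h P_four

end Pool.Agent.R179.Per
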