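import Pool.Agent.R179.Per.F5

open MeasureTheory Metric Set

namespace Pool.Agent.R179.Per

theorem dm_eq (x : Fin 4 → E6) (i j : Fin 4) : dm x i j = (x i 0 - x j 0) ^ 2 + (x i 1 - x j 1) ^ 2 +
    (x i 2 - x j 2) ^ 2 + (x i 3 - x j 3) ^ 2 + (x i 4 - x j 4) ^ 2 + (x i 5 - x j 5) ^ 2 := by
  unfold dm
  rw [dist_sq6, Real.sq_sqrt (by positivity)]

theorem dist_sq2 (x y : Pl) : dist x y ^ 2 = (x 0 - y 0) ^ 2 + (x 1 - y 1) ^ 2 := by
  rw [EuclideanSpace.dist_eq, Fin.sum_univ_two, Real.sq_sqrt (by positivity)]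
  simp [Real.dist_eq, sq_abs]

theorem dm_lift (δ : ℝ) (p : Fin 4 → Pl) (i j : Fin 4) : dm (lift δ p) i j =
    dist (p i) (p j) ^ 2 + if i = j then 0 else 2 * δ ^ 2 := by
  rw [dm_eq, dist_sq2]
  fin_cases i <;> fin_cases j <;> simp [lift] <;> ring

theorem NT_lift (δ : ℝ) (p : Fin 4 → Pl) : NT (2 * δ ^ 2) (dm (lift δ p)) where
  symm i j := by unfold dm; rw [dist_comm]
  diag i := by unfold dm; simp
  neg c hc := by
    simp only [Fin.sum_univ_four] at hc ⊢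
    simp only [dm_lift, dist_sq2]
    have h3 : c 3 = -(c 0 + c 1 + c 2) := by linarith
    simp only [Fin.isValue, ↓reduceIte, zero_ne_one, one_ne_zero, Fin.reduceEq, h3]
    nlinarith [sq_nonneg (c 0 * p 0 0 + c 1 * p 1 0 + c 2 * p 2 0 - (c 0 + c 1 + c 2) * p 3 0),
      sq_nonneg (c 0 * p 0 1 + c 1 * p 1 1 + c 2 * p 2 1 - (c 0 + c 1 + c 2) * p 3 1)]

theorem J_perm (φ : ℝ → ℝ) (x : Fin 4 → E6) (σ : Equiv.Perm (Fin 4)) :
    J φ (fun i => x (σ i)) = J φ x := by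
  unfold J
  congr 1
  ext y
  congr 1
  exact Equiv.iInf_comp (g := fun i => dist y (x i) ^ 2) σ

theorem dm_hinge_eq (l s0 s1 r0 r1 τ : ℝ) (D : Fin 4 → Fin 4 → ℝ) (ε : ℝ) (hD : NT ε D)
    (h23 : D 2 3 = l ^ 2) (h20 : D 2 0 = s0 ^ 2 + r0 ^ 2) (h30 : D 3 0 = (s0 - l) ^ 2 + r0 ^ 2)
    (h21 : D 2 1 = s1 ^ 2 + r1 ^ 2) (h31 : D 3 1 = (s1 - l) ^ 2 + r1 ^ 2)
    (h01 : D 0 1 = (s0 - s1) ^ 2 + r0 ^ 2 + r1 ^ 2 - 2 * r0 * r1 * Real.cos τ) :
    dm (hinge l s0 s1 r0 r1 τ) = D := by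
  have h32 := hD.symm 3 2
  have h02 := hD.symm 0 2
  have h03 := hD.symm 0 3
  have h12 := hD.symm 1 2
  have h13 := hD.symm 1 3
  have h10 := hD.symm 1 0
  have d0 := hD.diag 0
  have d1 := hD.diag 1
  have d2 := hD.diag 2
  have d3 := hD.diag 3
  have hsc := Real.sin_sq_add_cos_sq τ
  funext i j
  rw [dm_eq]
  fin_cases i <;> fin_cases j <;> simp [hinge, *] <;>
    first
      | linear_combination r0 ^ 2 * hsc
      | linear_combination (0:ℝ) * hsc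

open Classical in
noncomputable def FF (φ : ℝ → ℝ) (D : Fin 4 → Fin 4 → ℝ) : ℝ :=
  if h : ∃ x : Fin 4 → E6, dm x = D then J φ h.choose else 0

theorem FF_eq (hG : St_G) (φ : ℝ → ℝ) (x : Fin 4 → E6) : FF φ (dm x) = J φ x := by
  unfold FF
  have h : ∃ y : Fin 4 → E6, dm y = dm x := ⟨x, rfl⟩
  rw [dif_pos h]
  apply hG
  intro i j
  have h1 := h.choose_spec
  have h2 : dist (h.choose i) (h.choose j) ^ 2 = dist (x i) (x j) ^ 2 := congrFun (congrFun h1 i) j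
  exact (sq_eq_sq₀ dist_nonneg dist_nonneg).mp h2

theorem exists_perm (a b : Fin 4) (h : a ≠ b) : ∃ σ : Equiv.Perm (Fin 4), σ 0 = a ∧ σ 1 = b := by
  revert a b; decide

theorem NT_perm {ε : ℝ} {D : Fin 4 → Fin 4 → ℝ} (hD : NT ε D) (σ : Equiv.Perm (Fin 4)) :
    NT ε (fun i j => D (σ i) (σ j)) where
  symm i j := hD.symm _ _
  diag i := hD.diag _
  neg c hc := by
    have h := hD.neg (fun i => c (σ.symm i)) (by rw [Equiv.sum_comp]; exact hc)
    have e1 : ∑ i, c (σ.symm i) ^ 2 = ∑ i, c i ^ 2 := Equiv.sum_comp σ.symm (fun i => c i ^ 2)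
    have e2 : ∑ i, ∑ j, c (σ.symm i) * c (σ.symm j) * D i j =
        ∑ i, ∑ j, c i * c j * D (σ i) (σ j) := by
      rw [← Equiv.sum_comp σ]
      refine Finset.sum_congr rfl fun i _ => ?_
      rw [← Equiv.sum_comp σ]
      simp
    simp only [e1, e2] at h
    exact h

theorem step (hF : St_F) (hG : St_G) (hH : St_H) (φ : ℝ → ℝ) (hφ : Test φ) (ε : ℝ) (hε : 0 < ε)
    (D D' : Fin 4 → Fin 4 → ℝ) (hD : NT ε D) (hD' : NT ε D') (a b : Fin 4) (hab : a ≠ b)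
    (hle : D' a b ≤ D a b) (heq : ∀ i j, ¬ ((i = a ∧ j = b) ∨ (i = b ∧ j = a)) → D' i j = D i j) :
    FF φ D' ≤ FF φ D := by
  obtain ⟨σ, hσ0, hσ1⟩ := exists_perm a b hab
  obtain ⟨l, s0, s1, r0, r1, τ, hl, hr0, hr1, hτ, h23, h20, h30, h21, h31, h01⟩ :=
    hH ε hε _ (NT_perm hD σ)
  obtain ⟨l', s0', s1', r0', r1', τ', hl', hr0', hr1', hτ', h23', h20', h30', h21', h31', h01'⟩ :=
    hH ε hε _ (NT_perm hD' σ)
  have hne : ∀ i j : Fin 4, i ≠ j → σ i ≠ σ j := fun i j h h' => h (σ.injective h')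
  have E : ∀ i j : Fin 4, ¬ ((i = 0 ∧ j = 1) ∨ (i = 1 ∧ j = 0)) → D' (σ i) (σ j) = D (σ i) (σ j) := by
    intro i j hij
    apply heq
    rw [← hσ0, ← hσ1]
    simpa using hij
  have E23 := E 2 3 (by decide)
  have E20 := E 2 0 (by decide)
  have E30 := E 3 0 (by decide)
  have E21 := E 2 1 (by decide)
  have E31 := E 3 1 (by decide)
  have hll : l' = l := by
    have : l' ^ 2 = l ^ 2 := by rw [← h23, ← h23']; exact E23
    exact (sq_eq_sq₀ hl'.le hl.le).mp this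
  subst hll
  have q20 : s0' ^ 2 + r0' ^ 2 = s0 ^ 2 + r0 ^ 2 := by rw [← h20, ← h20']; exact E20
  have q30 : (s0' - l') ^ 2 + r0' ^ 2 = (s0 - l') ^ 2 + r0 ^ 2 := by rw [← h30, ← h30']; exact E30
  have q21 : s1' ^ 2 + r1' ^ 2 = s1 ^ 2 + r1 ^ 2 := by rw [← h21, ← h21']; exact E21
  have q31 : (s1' - l') ^ 2 + r1' ^ 2 = (s1 - l') ^ 2 + r1 ^ 2 := by rw [← h31, ← h31']; exact E31
  have hs0 : s0' = s0 := by
    have : l' * (s0' - s0) = 0 := by linear_combination (q20 - q30) / 2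
    rcases mul_eq_zero.mp this with h | h
    · exact absurd h hl.ne'
    · linarith
  have hs1 : s1' = s1 := by
    have : l' * (s1' - s1) = 0 := by linear_combination (q21 - q31) / 2
    rcases mul_eq_zero.mp this with h | h
    · exact absurd h hl.ne'
    · linarith
  subst hs0 hs1
  have hrr0 : r0' = r0 := (sq_eq_sq₀ hr0'.le hr0.le).mp (by linarith)
  have hrr1 : r1' = r1 := (sq_eq_sq₀ hr1'.le hr1.le).mp (by linarith)
  subst hrr0 hrr1
  have hττ : τ' ≤ τ := by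
    by_contra hlt
    push Not at hlt
    have hcos := Real.strictAntiOn_cos ⟨hτ.1.le, hτ.2.le⟩ ⟨hτ'.1.le, hτ'.2.le⟩ hlt
    have h4 : D' (σ 0) (σ 1) ≤ D (σ 0) (σ 1) := by rw [hσ0, hσ1]; exact hle
    have h5 : D (σ 0) (σ 1) = _ := h01
    have h6 : D' (σ 0) (σ 1) = _ := h01'
    rw [h5, h6] at h4
    have : 0 < r0' * r1' := by positivity
    nlinarith
  have m1 := dm_hinge_eq l' s0' s1' r0' r1' τ _ ε (NT_perm hD σ) h23 h20 h30 h21 h31 h01
  have m2 := dm_hinge_eq l' s0' s1' r0' r1' τ' _ ε (NT_perm hD' σ) h23' h20' h30' h21' h31' h01'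
  have back : ∀ (D : Fin 4 → Fin 4 → ℝ) (x : Fin 4 → E6), dm x = (fun i j => D (σ i) (σ j)) →
      FF φ D = J φ x := by
    intro D x hx
    have e : dm (fun i => x (σ.symm i)) = D := by
      funext i j
      have := congrFun (congrFun hx (σ.symm i)) (σ.symm j)
      simpa [dm] using this
    rw [← e, FF_eq hG, J_perm]
  rw [back D _ m1, back D' _ m2]
  exact hF φ hφ l' s0' s1' r0' r1' hl hr0 hr1 hτ' hτ hττ

theorem J_lift_le (hF : St_F) (hG : St_G) (hH : St_H) (hI : St_I) (φ : ℝ → ℝ) (hφ : Test φ)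
    (p q : Fin 4 → Pl) (hpq : ∀ i j, dist (q i) (q j) ≤ dist (p i) (p j)) (δ : ℝ) (hδ : 0 < δ) :
    J φ (lift δ q) ≤ J φ (lift δ p) := by
  have h := hI (FF φ) (fun ε hε D D' hD hD' a b hab hle heq =>
    step hF hG hH φ hφ ε hε D D' hD hD' a b hab hle heq) (2 * δ ^ 2) (by positivity)
    (dm (lift δ p)) (dm (lift δ q)) (NT_lift δ p) (NT_lift δ q) (by
      intro i j
      rw [dm_lift, dm_lift]
      have := hpq i j
      gcongr)
  rwa [FF_eq hG, FF_eq hG] at h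

theorem I2_le (hD : St_D) (hF : St_F) (hG : St_G) (hH : St_H) (hI : St_I) (hK : St_K)
    (φ : ℝ → ℝ) (hφ : Test φ)
    (p q : Fin 4 → Pl) (hpq : ∀ i j, dist (q i) (q j) ≤ dist (p i) (p j)) :
    I2 φ q ≤ I2 φ p := by
  have h1 : J φ (lift 0 q) ≤ J φ (lift 0 p) := by
    refine le_of_tendsto_of_tendsto (hK φ hφ q) (hK φ hφ p) ?_
    filter_upwards [self_mem_nhdsWithin] with δ hδ
    exact J_lift_le hF hG hH hI φ hφ p q hpq δ hδ
  rw [hD φ hφ, hD φ hφ] at h1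
  have : 0 < Real.pi ^ 2 := by positivity
  exact le_of_mul_le_mul_left h1 this

theorem per_eq (c : ENNReal) (hc : ∀ S : Finset Pl,
    Measure.hausdorffMeasure 1 (frontier (⋃ a ∈ S, closedBall a 1)) = c * ENNReal.ofReal (T S 1))
    {n : ℕ} (p : Fin n → Pl) : per p = c * ENNReal.ofReal (T (im p) 1) := by
  rw [← hc]
  unfold per
  congr 2
  ext x
  simp [im]

theorem P4_of (hA : St_A) (hC : St_C) (hD : St_D) (hE : St_E) (hG : St_G) (hH : St_H)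
    (hI : St_I) (hK : St_K) : P 4 := by
  intro p q hpq
  obtain ⟨c, _, _, hc⟩ := hA
  rw [per_eq c hc, per_eq c hc]
  have : T (im q) 1 ≤ T (im p) 1 := hC p q fun φ hφ =>
    I2_le hD (f_of hE hG) hG hH hI hK φ hφ p q hpq
  gcongr

theorem notP5_of (hA : St_A) (hB : St_B) : ¬ P 5 := by
  intro h
  obtain ⟨c, hc0, hct, hc⟩ := hA
  obtain ⟨p, q, hpq, hlt⟩ := hB
  have h1 := h p q hpq
  rw [per_eq c hc, per_eq c hc] at h1
  rw [ENNReal.mul_le_mul_iff_right hc0 hct] at h1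
  have h2 : 0 ≤ T (im p) 1 := Finset.sum_nonneg fun _ _ => ENNReal.toReal_nonneg
  rw [ENNReal.ofReal_le_ofReal_iff h2] at h1
  linarith

end Pool.Agent.R179.Per
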